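import Pool.Agent.TH451.MB.Stmt

namespace Pool.Agent.TH451.MB
open Finset

/-- the star with centre `c` -/
def starG {n : ℕ} (c : Fin n) : SimpleGraph (Fin n) where
  Adj a b := a ≠ b ∧ (a = c ∨ b = c)
  symm := ⟨fun _ _ h => ⟨h.1.symm, h.2.symm⟩⟩
  loopless := ⟨fun _ h => h.1 rfl⟩

lemma starG_tree {n : ℕ} (c : Fin n) : (starG c).IsTree := by
  constructor
  · have : Nonempty (Fin n) := ⟨c⟩
    refine ⟨?_⟩
    intro a b
    have h : ∀ x, (starG c).Reachable c x := by
      intro x
      by_cases hx : x = c
      · rw [hx]
      · exact SimpleGraph.Adj.reachable ⟨fun h => hx h.symm, Or.inl rfl⟩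
    exact (h a).symm.trans (h b)
  · intro v p hp
    -- a cycle has at least three different vertices, each adjacent to two others
    have h3 := hp.three_le_length
    -- every edge of the cycle contains c; a circuit passes through c at most once
    cases p with
    | nil => simp at h3
    | cons h q =>
      cases q with
      | nil => simp at h3
      | cons h' q' =>
        cases q' with
        | nil => simp at h3
        | cons h'' q'' =>
          rename_i v1 v2 v3
          have hnd := hp.support_nodup
          simp only [SimpleGraph.Walk.support_cons, List.tail_cons, List.nodup_cons,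
            List.mem_cons] at hnd
          obtain ⟨hv1, hv2, _⟩ := hnd
          -- v - v1 - v2 - v3
          have a1 := h.2
          have a2 := h'.2
          have a3 := h''.2
          have n1 := h.1
          have n2 := h'.1
          have n3 := h''.1
          have hend : v ∈ q''.support := SimpleGraph.Walk.end_mem_support q''
          have hst : v3 ∈ q''.support := SimpleGraph.Walk.start_mem_support q''
          push Not at hv1
          have e12 : v1 ≠ v2 := hv1.1
          have e1v : v1 ≠ v := fun h => hv1.2 (h ▸ hend)
          have e13 : v1 ≠ v3 := fun h => hv1.2 (h ▸ hst)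
          have e2v : v2 ≠ v := fun h => hv2 (h ▸ hend)
          by_cases hc : v1 = c
          · -- then v2 ≠ c, v3 = c
            rcases a3 with h | h
            · exact e12 (hc.trans h.symm)
            · exact e13 (hc.trans h.symm)
          · rcases a1 with h | h
            · rcases a2 with h' | h'
              · exact hc h'
              · exact e2v (h'.trans h.symm)
            · exact hc h

/-- the number of vertices not touched by Breaker -/
noncomputable def untouched {n : ℕ} (B : Finset (Sym2 (Fin n))) : ℕ :=
  (univ.filter (fun v : Fin n => ∀ b ∈ B, v ∉ b)).card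

/-- the invariant -/
def inv {n : ℕ} (t : Turn) (M B : Finset (Sym2 (Fin n))) : Prop :=
  match t with
  | Turn.maker => M.card + untouched B + 2 ≤ n ∨ untouched B = 0
  | Turn.breaker => M.card + untouched B + 1 ≤ n ∨ untouched B = 0

lemma no_star {n : ℕ} (c : Fin n) (M B : Finset (Sym2 (Fin n))) (hB : B ⊆ board n)
    (hMB : Disjoint M B) (hinv : M.card + untouched B + 1 ≤ n ∨ untouched B = 0)
    (W) (hW : W ∈ copies (starG c)) : ¬ W ⊆ M := by
  classical
  intro hWM
  obtain ⟨ψ, hψ⟩ := hW
  have hW1 : ∀ x, x ≠ ψ c → s(ψ c, x) ∈ W := by
    intro x hx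
    rw [hψ]
    refine ⟨c, ψ.symm x, ⟨?_, Or.inl rfl⟩, by simp⟩
    rintro h
    apply hx
    rw [h]; simp
  have hcard : n - 1 ≤ W.card := by
    have h1 : (univ.erase (ψ c)).card = n - 1 := by
      rw [card_erase_of_mem (mem_univ _)]; simp
    rw [← h1]
    apply card_le_card_of_injOn (fun x => s(ψ c, x))
    · intro x hx
      exact hW1 x (ne_of_mem_erase (mem_coe.mp hx))
    · intro x hx y hy hxy
      simp only [Sym2.eq_iff] at hxy
      rcases hxy with h | h
      · exact h.2
      · exact absurd h.2 (ne_of_mem_erase (mem_coe.mp hx))
  have hunt : 1 ≤ untouched B := by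
    rw [untouched]
    apply card_pos.mpr
    refine ⟨ψ c, ?_⟩
    rw [mem_filter]
    refine ⟨mem_univ _, ?_⟩
    intro b hb hcb
    obtain ⟨x, rfl⟩ := Sym2.mem_iff_exists.mp hcb
    by_cases hx : x = ψ c
    · subst hx
      have := hB hb
      simp [board] at this
    · exact disjoint_left.mp hMB (hWM (hW1 x hx)) hb
  have := card_le_card hWM
  omega

lemma untouched_insert_le {n : ℕ} (b : Sym2 (Fin n)) (B : Finset (Sym2 (Fin n))) :
    untouched (insert b B) ≤ untouched B := by
  apply card_le_card
  intro v hv
  rw [mem_filter] at hv ⊢
  exact ⟨mem_univ _, fun b' hb' => hv.2 b' (mem_insert_of_mem hb')⟩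

lemma star_no_win {n : ℕ} (c : Fin n) (t : Turn) (M B : Finset (Sym2 (Fin n)))
    (h : MakerWinsFrom (board n) (copies (starG c)) t M B) : M ⊆ board n → B ⊆ board n →
    Disjoint M B → inv t M B → False := by
  classical
  induction h with
  | @won t M B W hW hWM =>
    intro _ hB hMB hinv
    refine no_star c M B hB hMB ?_ W hW hWM
    cases t with
    | maker =>
      simp only [inv] at hinv
      omega
    | breaker => exact hinv
  | @breaker M B hfree h ih =>
    intro hM hB hMB hinv
    simp only [inv] at hinv
    by_cases hu : untouched B = 0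
    · obtain ⟨b, hb⟩ := hfree
      have hb' := hb
      rw [mem_sdiff, mem_union, not_or] at hb'
      refine ih b hb hM (insert_subset hb'.1 hB) (by
        rw [disjoint_insert_right]; exact ⟨hb'.2.1, hMB⟩) ?_
      simp only [inv]
      right
      have := untouched_insert_le b B
      omega
    · have hpos : 0 < untouched B := Nat.pos_of_ne_zero hu
      obtain ⟨v, hv⟩ := card_pos.mp hpos
      rw [mem_filter] at hv
      have hMc : M.card + untouched B + 1 ≤ n := by omega
      -- a free edge at v
      have hex : ∃ x, x ≠ v ∧ s(v, x) ∉ M := by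
        by_contra hcon
        push Not at hcon
        have h1 : (univ.erase v).card = n - 1 := by
          rw [card_erase_of_mem (mem_univ _)]; simp
        have h2 : (univ.erase v).card ≤ M.card := by
          apply card_le_card_of_injOn (fun x => s(v, x))
          · intro x hx
            exact hcon x (ne_of_mem_erase (mem_coe.mp hx))
          · intro x hx y hy hxy
            simp only [Sym2.eq_iff] at hxy
            rcases hxy with h | h
            · exact h.2
            · exact absurd h.2 (ne_of_mem_erase (mem_coe.mp hx))
        omega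
      obtain ⟨x, hxv, hxM⟩ := hex
      have hxB : s(v, x) ∉ B := fun hb => hv.2 _ hb (by simp)
      have hxb : s(v, x) ∈ board n := by
        simp only [board, mem_filter, mem_univ, true_and]
        simpa using hxv.symm
      have hfr : s(v, x) ∈ board n \ (M ∪ B) := by
        rw [mem_sdiff, mem_union, not_or]
        exact ⟨hxb, hxM, hxB⟩
      refine ih _ hfr hM (insert_subset hxb hB) (by
        rw [disjoint_insert_right]; exact ⟨hxM, hMB⟩) ?_
      simp only [inv]
      left
      have hlt : untouched (insert s(v, x) B) < untouched B := by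
        apply card_lt_card
        rw [ssubset_iff_of_subset]
        · refine ⟨v, by rw [mem_filter]; exact hv, ?_⟩
          rw [mem_filter]
          push Not
          intro _
          exact ⟨s(v, x), mem_insert_self _ _, by simp⟩
        · intro w hw
          rw [mem_filter] at hw ⊢
          exact ⟨mem_univ _, fun b' hb' => hw.2 b' (mem_insert_of_mem hb')⟩
      omega
  | @maker M B m hm h ih =>
    intro hM hB hMB hinv
    rw [mem_sdiff, mem_union, not_or] at hm
    refine ih (insert_subset hm.1 hM) hB (by
      rw [disjoint_insert_left]; exact ⟨hm.2.2, hMB⟩) ?_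
    simp only [inv] at hinv ⊢
    rw [card_insert_of_notMem hm.2.1]
    omega

theorem star_not : StStarNot := by
  classical
  intro n hn
  refine ⟨starG ⟨0, by omega⟩, starG_tree _, ?_⟩
  intro hwin
  rw [MakerWins] at hwin
  cases hwin with
  | won W hW hWM =>
    obtain ⟨ψ, hψ⟩ := hW
    have h1 : s(ψ ⟨0, by omega⟩, ψ ⟨1, by omega⟩) ∈ W := by
      rw [hψ]
      exact ⟨⟨0, by omega⟩, ⟨1, by omega⟩, ⟨by simp, Or.inl rfl⟩, rfl⟩
    have := hWM h1
    simp at this
  | breaker hfree h =>
    set b : Sym2 (Fin n) := s(⟨0, by omega⟩, ⟨1, by omega⟩) with hb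
    have hbb : b ∈ board n := by
      simp [board, hb]
    refine star_no_win _ _ _ _ (h b (by simpa using hbb)) (by simp) (by simpa using hbb) (by simp) ?_
    simp only [inv]
    left
    have h2 : untouched (insert b (∅ : Finset (Sym2 (Fin n)))) ≤ n - 2 := by
      have h3 : (univ.filter (fun v : Fin n => ∀ b' ∈ insert b (∅ : Finset (Sym2 (Fin n))), v ∉ b')) ⊆
          univ \ {⟨0, by omega⟩, ⟨1, by omega⟩} := by
        intro v hv
        rw [mem_filter] at hv
        have := hv.2 b (mem_insert_self _ _)
        rw [hb, Sym2.mem_iff] at this
        rw [mem_sdiff, mem_insert, mem_singleton]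
        exact ⟨mem_univ _, this⟩
      have h4 := card_le_card h3
      rw [card_sdiff_of_subset (subset_univ _), card_univ, Fintype.card_fin,
        card_pair (by simp)] at h4
      exact h4
    simp only [card_empty]
    omega

end Pool.Agent.TH451.MB
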