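import Pool.Agent.TH451.MB.Stmt

namespace Pool.Agent.TH451.MB
open Finset

/-- polynomial in `log n` is eventually below `n` -/
lemma log_pow_le (C K e : ℕ) : ∃ n0 : ℕ, ∀ n ≥ n0, K * (C * (Nat.log 2 n + 1)) ^ e ≤ n := by
  have h1 : Filter.Tendsto (fun x : ℕ => ((x : ℝ) ^ e / (2 : ℝ) ^ x)) Filter.atTop (nhds 0) :=
    tendsto_pow_const_div_const_pow_of_one_lt e (by norm_num)
  -- K * (C*(x+1))^e ≤ 2^x for x large
  have h2 : ∃ x0 : ℕ, ∀ x ≥ x0, K * (C * (x + 1)) ^ e ≤ 2 ^ x := by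
    set D : ℝ := (2 * K * C ^ e + 1 : ℝ) with hD
    have hDpos : 0 < D := by positivity
    have h3 := (h1.eventually (gt_mem_nhds (show (0:ℝ) < 1 / D by positivity)))
    rw [Filter.eventually_atTop] at h3
    obtain ⟨x0, hx0⟩ := h3
    refine ⟨x0, fun x hx => ?_⟩
    have h4 := hx0 (x + 1) (by omega)
    have h5 : ((x + 1 : ℕ) : ℝ) ^ e * D < 2 ^ (x + 1) := by
      have h2p : (0:ℝ) < 2 ^ (x + 1) := by positivity
      rw [div_lt_div_iff₀ h2p hDpos] at h4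
      linarith
    have h6 : ((K * (C * (x + 1)) ^ e : ℕ) : ℝ) ≤ 2 ^ x := by
      push_cast
      push_cast at h5
      have h7 : (0:ℝ) ≤ ((x : ℝ) + 1) ^ e := by positivity
      have h8 : (2:ℝ) ^ (x + 1) = 2 * 2 ^ x := by ring
      rw [h8] at h5
      have h9 : ((C:ℝ) * ((x:ℝ) + 1)) ^ e = C ^ e * ((x:ℝ) + 1) ^ e := by rw [mul_pow]
      rw [h9]
      have : 2 * ((K : ℝ) * (C ^ e * ((x:ℝ) + 1) ^ e)) ≤ ((x:ℝ) + 1) ^ e * D := by
        rw [hD]; nlinarith
      linarith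
    exact_mod_cast h6
  obtain ⟨x0, hx0⟩ := h2
  refine ⟨2 ^ x0, fun n hn => ?_⟩
  have hnpos : n ≠ 0 := by
    have : 0 < 2 ^ x0 := by positivity
    omega
  have h3 : x0 ≤ Nat.log 2 n := by
    apply Nat.le_log_of_pow_le (by norm_num) hn
  exact (hx0 _ h3).trans (Nat.pow_log_le_self 2 hnpos)

/-- choose a subset of given size avoiding a given set -/
lemma exists_avoid {n : ℕ} (Av : Finset (Fin n)) (k : ℕ) (h : k + Av.card ≤ n) :
    ∃ S : Finset (Fin n), S.card = k ∧ Disjoint S Av := by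
  have h1 : k ≤ (univ \ Av).card := by
    rw [card_sdiff_of_subset (subset_univ _), card_univ, Fintype.card_fin]; omega
  obtain ⟨S, hS, hSc⟩ := exists_subset_card_eq h1
  refine ⟨S, hSc, ?_⟩
  rw [disjoint_left]
  intro a ha hb
  have := hS ha
  simp at this
  exact this hb

lemma nb_mono {V : Type} {G : SimpleGraph V} {v : V} {R R' : Finset V} (h : R ⊆ R') :
    nb G v R ⊆ nb G v R' := by
  intro z hz
  rw [mem_nb] at *
  exact ⟨h hz.1, hz.2⟩

lemma nb_subset {V : Type} {G : SimpleGraph V} {v : V} {R : Finset V} : nb G v R ⊆ R := by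
  intro z hz
  rw [mem_nb] at hz
  exact hz.1

lemma nb_erase_self {V : Type} [DecidableEq V] {G : SimpleGraph V} {v : V} {R : Finset V} :
    nb G v (R.erase v) = nb G v R := by
  ext z
  simp only [mem_nb, mem_erase]
  constructor
  · rintro ⟨⟨_, h⟩, h'⟩; exact ⟨h, h'⟩
  · rintro ⟨h, h'⟩; exact ⟨⟨h'.ne', h⟩, h'⟩

end Pool.Agent.TH451.MB
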