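import Pool.Agent.TH451.MB.Hub

namespace Pool.Agent.TH451.MB
open Finset

lemma expands_mono_s {V : Type} [Fintype V] {G : SimpleGraph V} {H : Finset V} {s s' : ℕ}
    (h : Expands G H s) (hs : s ≤ s') : Expands G H s' where
  p2 A B h1 h2 h3 h4 h5 := h.p2 A B h1 h2 h3 (hs.trans h4) (hs.trans h5)
  p3 A U h1 h2 h3 h4 h5 h6 := h.p3 A U h1 h2 h3 h4 (hs.trans h5) h6

/-- three far leaf parents with large demand -/
theorem case_big_far (hG : StGame) (hPF : StPhaseFree) (hL : StLeafy1) :
    ∃ C n0 : ℕ, ∀ n ≥ n0, ∀ s : ℕ,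
    C * (Nat.log 2 n + 1) ≤ s → 1 ≤ s → s ^ 5 ≤ n → 10 ^ 7 * s ≤ n →
    ∀ T : SimpleGraph (Fin n), T.IsTree → n < 1000 * (lv T).card →
    (∀ t, 10 ^ 10 * (nb T t univ).card ≤ n) →
    ∀ d : ℕ, s ≤ d → (univ.filter (fun t => d < (nb T t (lv T)).card)).card ≤ 39 →
    ∀ Y : Finset (Fin n), Y.card = 3 → (∀ x ∈ Y, ∀ y ∈ Y, x ≠ y → Far T x y) →
    (∀ t ∈ Y, t ∉ lv T) → (∀ t ∈ Y, d ≤ (nb T t (lv T)).card) → MakerWins T := by
  classical
  obtain ⟨C, n0, hG⟩ := hub_game hG
  obtain ⟨n1, hL⟩ := hL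
  refine ⟨C, max (max n0 n1) 1000, ?_⟩
  intro n hn s hs hs1 hs5 hs7 T hT hlv hdeg d hsd hfew Y hYc hYfar hYlv hYd
  have hn0 : n0 ≤ n := le_trans (le_max_left _ _) (le_trans (le_max_left _ _) hn)
  have hn1 : n1 ≤ n := le_trans (le_max_right _ _) (le_trans (le_max_left _ _) hn)
  have hn2 : 1000 ≤ n := le_trans (le_max_right _ _) hn
  refine hPF (by omega) T ?_
  intro e b he hb hne
  -- touched vertices
  set Tv : Finset (Fin n) := univ.filter (fun v => v ∈ e ∨ v ∈ b) with hTv
  have hTvc : Tv.card ≤ 4 := by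
    have h1 : ∀ f : Sym2 (Fin n), (univ.filter (fun v => v ∈ f)).card ≤ 2 := by
      intro f
      induction f with | _ x y
      have : (univ.filter (fun v => v ∈ s(x, y))) ⊆ {x, y} := by
        intro v hv
        simp at hv
        simpa using hv
      exact (card_le_card this).trans (card_le_two)
    have h2 : Tv ⊆ univ.filter (fun v => v ∈ e) ∪ univ.filter (fun v => v ∈ b) := by
      intro v hv
      rw [hTv, mem_filter] at hv
      rw [mem_union, mem_filter, mem_filter]
      rcases hv.2 with h | h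
      · left; exact ⟨mem_univ _, h⟩
      · right; exact ⟨mem_univ _, h⟩
    have := (card_le_card h2).trans (card_union_le _ _)
    have := h1 e
    have := h1 b
    omega
  obtain ⟨S, hSc, hSd⟩ := exists_avoid Tv 3 (by omega)
  set q : Fin 3 → Fin n := fun i => S.orderEmbOfFin hSc i with hq
  have hqinj : Function.Injective q := (S.orderEmbOfFin hSc).injective
  have hqS : ∀ i, q i ∈ S := fun i => orderEmbOfFin_mem S hSc i
  set y : Fin 3 → Fin n := fun i => Y.orderEmbOfFin hYc i with hy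
  have hyinj : Function.Injective y := (Y.orderEmbOfFin hYc).injective
  have hyY : ∀ i, y i ∈ Y := fun i => orderEmbOfFin_mem Y hYc i
  have hYim : univ.image y = Y := by
    apply eq_of_subset_of_card_le
    · intro t ht
      rw [mem_image] at ht
      obtain ⟨i, _, rfl⟩ := ht
      exact hyY i
    · rw [card_image_of_injective _ hyinj, hYc]; simp
  set φ₀ : Fin n → Fin n := Function.extend y q id with hφ
  have hφy : ∀ i, φ₀ (y i) = q i := fun i => hyinj.extend_apply q id i
  have hPim : Y.image φ₀ = univ.image q := by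
    rw [← hYim, image_image]
    apply image_congr
    intro i _
    exact hφy i
  have hinj : Set.InjOn φ₀ (Y : Set (Fin n)) := by
    intro a ha c hc hac
    rw [← hYim] at ha hc
    simp only [coe_image, coe_univ, Set.image_univ, Set.mem_range] at ha hc
    obtain ⟨i, rfl⟩ := ha
    obtain ⟨j, rfl⟩ := hc
    rw [hφy, hφy] at hac
    rw [hqinj hac]
  have hqT : ∀ i, q i ∉ e ∧ q i ∉ b := by
    intro i
    have h := disjoint_left.mp hSd (hqS i)
    rw [hTv, mem_filter] at h
    push Not at h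
    exact h (mem_univ _)
  have hfree : ∀ x i, s(x, q i) ∉ ({e} : Finset (Sym2 (Fin n))) ∪ {b} := by
    intro x i h
    rw [mem_union, mem_singleton, mem_singleton] at h
    rcases h with h | h
    · exact (hqT i).1 (by rw [← h]; simp)
    · exact (hqT i).2 (by rw [← h]; simp)
  refine hG n hn0 s hs hs1 hs7 T (lv T).card hlv ((card_le_univ _).trans (by simp)) q hqinj ∅
    (by simp) (by simp) {e} {b} (by simp) (by simpa using he) (by simpa using hb)
    (by simpa using hne) ∅ (by simp) (fun x _ _ _ i => hfree x i)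
    (fun x _ _ => ⟨0, 1, by decide, hfree x 0, hfree x 1⟩) s le_rfl (by omega) ?_
  intro W0 Z hW0 hZ hZW hZc h2W G hE hnbW hnbR hp4 hdom hM
  rw [union_empty] at hW0
  refine hL n hn1 s hs1 hs5 T hT hlv hdeg d hsd hfew Y Y (Subset.refl _) hYc (by omega) hYlv hYd ?_
    φ₀ hinj W0 (by rw [hPim]; exact hW0) h2W G (by rw [hPim]; exact hE) ?_
    (fun v => le_trans (Nat.le_add_right _ _) (hnbW v)) ?_ ?_
  · intro t _ a ha c hc hta htc
    by_contra hac
    exact (hYfar a ha c hc hac).2 t ⟨hta.symm, htc.symm⟩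
  · intro a ha c hc hac
    exact absurd hac (hYfar a ha c hc hac.ne).1
  · intro c hc
    apply hnbR
    have : (Y.image φ₀).card ≤ 3 := card_image_le.trans hYc.le
    omega
  · intro x hx
    rw [hPim] at hx
    obtain ⟨i, hi⟩ := hdom x hx (by simp)
    exact ⟨y i, hyY i, by rw [hφy]; exact hi.symm⟩

/-- a vertex with three neighbours that are leaf parents with large demand -/
theorem case_big_star (hG : StGame) (hPS : StPhaseStar) (hL : StLeafy1) (hSC : StStarClosed) :
    ∃ C n0 : ℕ, ∀ n ≥ n0, ∀ s : ℕ,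
    C * (Nat.log 2 n + 1) ≤ s → 1 ≤ s → s ^ 5 ≤ n → 10 ^ 7 * s ≤ n →
    ∀ T : SimpleGraph (Fin n), T.IsTree → n < 1000 * (lv T).card →
    (∀ t, 10 ^ 10 * (nb T t univ).card ≤ n) →
    ∀ d : ℕ, s ≤ d → (univ.filter (fun t => d < (nb T t (lv T)).card)).card ≤ 39 →
    ∀ (p : Fin n) (Y : Finset (Fin n)), Y.card = 3 → (∀ y ∈ Y, T.Adj p y) →
    (∀ t ∈ Y, t ∉ lv T) → p ∉ lv T → (∀ t ∈ Y, d ≤ (nb T t (lv T)).card) → MakerWins T := by
  classical
  obtain ⟨C, n0, hG⟩ := hub_game hG
  obtain ⟨n1, hL⟩ := hL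
  refine ⟨C, max (max n0 n1) 1000, ?_⟩
  intro n hn s hs hs1 hs5 hs7 T hT hlv hdeg d hsd hfew p Y hYc hpY hYlv hplv hYd
  have hn0 : n0 ≤ n := le_trans (le_max_left _ _) (le_trans (le_max_left _ _) hn)
  have hn1 : n1 ≤ n := le_trans (le_max_right _ _) (le_trans (le_max_left _ _) hn)
  have hn2 : 1000 ≤ n := le_trans (le_max_right _ _) hn
  refine hPS (by omega) T ?_
  intro v0 q1 q2 q3 hnd B0 hB0 hB0c hMB htwo
  set q : Fin 3 → Fin n := ![q1, q2, q3] with hq
  have hnd' : v0 ≠ q1 ∧ v0 ≠ q2 ∧ v0 ≠ q3 ∧ q1 ≠ q2 ∧ q1 ≠ q3 ∧ q2 ≠ q3 := by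
    simp only [List.nodup_cons, List.mem_cons, List.not_mem_nil, or_false, not_or,
      not_false_eq_true, List.nodup_nil, and_true] at hnd
    tauto
  obtain ⟨h01, h02, h03, h12, h13, h23⟩ := hnd'
  have hqinj : Function.Injective q := by
    intro i j hij
    fin_cases i <;> fin_cases j <;> simp [hq] at hij ⊢ <;> tauto
  have hq0 : ∀ i, q i ≠ v0 := by
    intro i
    fin_cases i <;> simp [hq] <;> tauto
  have hqim : univ.image q = {q1, q2, q3} := by
    ext x
    simp only [mem_image, mem_univ, true_and, mem_insert, mem_singleton]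
    constructor
    · rintro ⟨i, rfl⟩
      fin_cases i <;> simp [hq]
    · rintro (rfl | rfl | rfl)
      · exact ⟨0, rfl⟩
      · exact ⟨1, rfl⟩
      · exact ⟨2, rfl⟩
  have hpnY : p ∉ Y := fun h => (hpY p h).ne rfl
  set y : Fin 3 → Fin n := fun i => Y.orderEmbOfFin hYc i with hy
  have hyinj : Function.Injective y := (Y.orderEmbOfFin hYc).injective
  have hyY : ∀ i, y i ∈ Y := fun i => orderEmbOfFin_mem Y hYc i
  have hyp : ∀ i, y i ≠ p := fun i h => hpnY (h ▸ hyY i)
  have hYim : univ.image y = Y := by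
    apply eq_of_subset_of_card_le
    · intro t ht
      rw [mem_image] at ht
      obtain ⟨i, _, rfl⟩ := ht
      exact hyY i
    · rw [card_image_of_injective _ hyinj, hYc]; simp
  have hYmem : ∀ t ∈ Y, ∃ i, y i = t := by
    intro t ht
    rw [← hYim, mem_image] at ht
    obtain ⟨i, _, rfl⟩ := ht
    exact ⟨i, rfl⟩
  set φ₀ : Fin n → Fin n := Function.extend y q (fun _ => v0) with hφ
  have hφy : ∀ i, φ₀ (y i) = q i := fun i => hyinj.extend_apply q _ i
  have hφp : φ₀ p = v0 := by
    rw [hφ]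
    apply Function.extend_apply'
    rintro ⟨i, hi⟩
    exact hyp i hi
  have hYφ : Y.image φ₀ = univ.image q := by
    rw [← hYim, image_image]
    apply image_congr
    intro i _
    exact hφy i
  set P : Finset (Fin n) := insert p Y with hP
  have hPim : P.image φ₀ = insert v0 (univ.image q) := by
    rw [hP, image_insert, hYφ, hφp]
  have hinj : Set.InjOn φ₀ (P : Set (Fin n)) := by
    intro a ha c hc hac
    rw [mem_coe, hP, mem_insert] at ha hc
    rcases ha with rfl | ha
    · rcases hc with rfl | hc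
      · rfl
      · obtain ⟨j, rfl⟩ := hYmem c hc
        rw [hφp, hφy] at hac
        exact absurd hac.symm (hq0 j)
    · obtain ⟨i, rfl⟩ := hYmem a ha
      rcases hc with rfl | hc
      · rw [hφp, hφy] at hac
        exact absurd hac (hq0 i)
      · obtain ⟨j, rfl⟩ := hYmem c hc
        rw [hφy, hφy] at hac
        rw [hqinj hac]
  have hM0 : ({s(v0, q1), s(v0, q2), s(v0, q3)} : Finset (Sym2 (Fin n))) ⊆ board n := by
    intro e he
    simp only [mem_insert, mem_singleton] at he
    simp only [board, mem_filter, mem_univ, true_and]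
    rcases he with rfl | rfl | rfl <;> simpa
  -- touched vertices
  set Tv : Finset (Fin n) := univ.filter (fun v => ∃ b ∈ B0, v ∈ b) with hTv
  have hTvc : Tv.card ≤ 6 := by
    have h1 : ∀ f : Sym2 (Fin n), (univ.filter (fun v => v ∈ f)).card ≤ 2 := by
      intro f
      induction f with | _ x y
      have : (univ.filter (fun v => v ∈ s(x, y))) ⊆ {x, y} := by
        intro v hv
        simp at hv
        simpa using hv
      exact (card_le_card this).trans (card_le_two)
    have h2 : Tv ⊆ B0.biUnion (fun b => univ.filter (fun v => v ∈ b)) := by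
      intro v hv
      rw [hTv, mem_filter] at hv
      obtain ⟨_, b, hb, hvb⟩ := hv
      rw [mem_biUnion]
      exact ⟨b, hb, by rw [mem_filter]; exact ⟨mem_univ _, hvb⟩⟩
    have h3 := (card_le_card h2).trans card_biUnion_le
    have h4 : ∑ b ∈ B0, (univ.filter (fun v => v ∈ b)).card ≤ ∑ b ∈ B0, 2 :=
      sum_le_sum (fun b _ => h1 b)
    rw [sum_const, smul_eq_mul] at h4
    omega
  have hM0not : ∀ x, x ∉ univ.image q → x ≠ v0 → ∀ i,
      s(x, q i) ∉ ({s(v0, q1), s(v0, q2), s(v0, q3)} : Finset (Sym2 (Fin n))) := by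
    intro x hx hx0 i h
    have hx' : x ≠ q1 ∧ x ≠ q2 ∧ x ≠ q3 := by
      rw [hqim] at hx
      simpa using hx
    simp only [mem_insert, mem_singleton, Sym2.eq_iff] at h
    rcases h with (h | h) | (h | h) | (h | h)
    · exact hx0 h.1
    · exact hx'.1 h.1
    · exact hx0 h.1
    · exact hx'.2.1 h.1
    · exact hx0 h.1
    · exact hx'.2.2 h.1
  refine hG n hn0 s hs hs1 hs7 T (lv T).card hlv ((card_le_univ _).trans (by simp)) q hqinj {v0}
    (by simp) (by simpa using hq0) {s(v0, q1), s(v0, q2), s(v0, q3)} B0 hB0c hM0 hB0 hMB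
    Tv hTvc ?_ ?_ s le_rfl (by omega) ?_
  · intro x hx hx0 hxT i
    rw [mem_union, not_or]
    refine ⟨hM0not x hx (by simpa using hx0) i, ?_⟩
    intro hb
    apply hxT
    rw [hTv, mem_filter]
    exact ⟨mem_univ _, _, hb, by simp⟩
  · intro x hx hx0
    have hx0' : x ≠ v0 := by simpa using hx0
    have hx' : x ≠ q1 ∧ x ≠ q2 ∧ x ≠ q3 := by
      rw [hqim] at hx
      simpa using hx
    have h3 := htwo x (by simp; tauto)
    rcases h3 with h | h | h
    · exact ⟨0, 1, by decide, by rw [mem_union, not_or]; exact ⟨hM0not x hx hx0' 0, h.1⟩,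
        by rw [mem_union, not_or]; exact ⟨hM0not x hx hx0' 1, h.2⟩⟩
    · exact ⟨0, 2, by decide, by rw [mem_union, not_or]; exact ⟨hM0not x hx hx0' 0, h.1⟩,
        by rw [mem_union, not_or]; exact ⟨hM0not x hx hx0' 2, h.2⟩⟩
    · exact ⟨1, 2, by decide, by rw [mem_union, not_or]; exact ⟨hM0not x hx hx0' 1, h.1⟩,
        by rw [mem_union, not_or]; exact ⟨hM0not x hx hx0' 2, h.2⟩⟩
  · intro W0 Z hW0 hZ hZW hZc h2W G hE hnbW hnbR hp4 hdom hM
    have hW0' : Disjoint W0 (P.image φ₀) := by
      rw [hPim, insert_eq, union_comm]; exact hW0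
    have hGpy : ∀ i, G.Adj v0 (q i) := by
      intro i
      have := hM (s(v0, q i)) (by fin_cases i <;> simp [hq])
      simpa using this
    refine hL n hn1 s hs1 hs5 T hT hlv hdeg d hsd hfew Y P (subset_insert _ _) hYc ?_ ?_ hYd ?_
      φ₀ hinj W0 hW0' h2W G (by rw [hYφ]; exact hE) ?_
      (fun v => le_trans (Nat.le_add_right _ _) (hnbW v)) ?_ ?_
    · rw [hP, card_insert_of_notMem hpnY, hYc]
    · intro t ht
      rw [hP, mem_insert] at ht
      rcases ht with rfl | ht
      · exact hplv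
      · exact hYlv t ht
    · intro t ht
      rw [hP, mem_insert, not_or] at ht
      exact hSC (Fin n) T hT.2 p Y hpY t ht.2 ht.1
    · intro a ha c hc hac
      rw [hP, mem_insert] at ha hc
      rcases ha with rfl | ha
      · rcases hc with rfl | hc
        · exact absurd rfl hac.ne
        · obtain ⟨j, rfl⟩ := hYmem c hc
          rw [hφp, hφy]; exact hGpy j
      · obtain ⟨i, rfl⟩ := hYmem a ha
        rcases hc with rfl | hc
        · rw [hφp, hφy]; exact (hGpy i).symm
        · exfalso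
          -- triangle
          have h1 := hSC (Fin n) T hT.2 p (Y.erase (y i)) (fun y' hy' => hpY y' (mem_of_mem_erase hy'))
            (y i) (by simp) (hyp i) p (mem_insert_self _ _) c
            (mem_insert_of_mem (mem_erase.mpr ⟨hac.ne', hc⟩)) (hpY _ ha).symm hac
          rw [h1] at hpnY
          exact hpnY hc
    · intro c hc
      apply hnbR
      have h1 : (P.image φ₀).card ≤ P.card := card_image_le
      have h2 : P.card ≤ 4 := by rw [hP, card_insert_of_notMem hpnY, hYc]
      omega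
    · intro x hx
      rw [hPim, mem_insert, not_or] at hx
      obtain ⟨i, hi⟩ := hdom x hx.2 (by simpa using hx.1)
      exact ⟨y i, hyY i, by rw [hφy]; exact hi.symm⟩

end Pool.Agent.TH451.MB
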