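import Pool.Agent.TH451.MB.Hub

namespace Pool.Agent.TH451.MB
open Finset

theorem plain_game (hG : StGame) : ∃ C n0 : ℕ, ∀ n ≥ n0, ∀ s : ℕ, C * (Nat.log 2 n + 1) ≤ s →
    ∀ (T : SimpleGraph (Fin n)) (D : Finset (Fin n × Finset (Fin n))) (Rs : Finset (Finset (Fin n))),
    D.card ≤ n ^ 2 → (∀ d ∈ D, s ≤ d.2.card ∧ d.1 ∉ d.2) → Rs.card ≤ n →
    (∀ R ∈ Rs, s ≤ R.card) →
    (∀ G : SimpleGraph (Fin n), Expands G ∅ s →
      (∀ d ∈ D, d.2.card ≤ 40 * (nb G d.1 d.2).card) →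
      (∀ R ∈ Rs, ∀ x y y', x ≠ y → x ≠ y' → y ≠ y' →
          R.card ≤ 40 * (lnb G x y y' R).card) → Spans G T) → MakerWins T := by
  obtain ⟨C, n0, hG⟩ := hG
  refine ⟨C, n0, ?_⟩
  intro n hn s hs T D Rs hD hD2 hRs hRs2 hfin
  refine hG n hn s hs T ∅ (fun _ => none) D Rs ∅ ∅ (by simp) (by simp) (by simp) (by simp) ?_ hD ?_
    hRs ?_ ?_
  · intro x q q' h; simp at h
  · intro d hd
    refine ⟨(hD2 d hd).1, (hD2 d hd).2, by simp, ?_⟩
    intro r _ q q' h; simp at h
  · intro R hR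
    exact ⟨hRs2 R hR, by simp⟩
  · intro G h1 h2 h3 _ _
    exact hfin G h1 h2 (fun R hR x y y' a b c => h3 R hR x y y' (by simp) (by simp) (by simp) a b c)

theorem case_path (hG : StGame) (hP : StPathStatic) : ∃ C n0 : ℕ, ∀ n ≥ n0, ∀ s : ℕ,
    C * (Nat.log 2 n + 1) ≤ s → 1 ≤ s → s ^ 5 ≤ n → 10 ^ 7 * s ≤ n →
    ∀ T : SimpleGraph (Fin n), T.IsTree → 1000 * (lv T).card ≤ n →
    (∀ t, 100000 * (nb T t univ).card ≤ n) → MakerWins T := by
  classical
  obtain ⟨C, n0, hG⟩ := plain_game hG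
  obtain ⟨n1, hP⟩ := hP
  refine ⟨C, max (max n0 n1) 1000, ?_⟩
  intro n hn s hs hs1 hs5 hs7 T hT hlv hdeg
  have hn0 : n0 ≤ n := le_trans (le_max_left _ _) (le_trans (le_max_left _ _) hn)
  have hn1 : n1 ≤ n := le_trans (le_max_right _ _) (le_trans (le_max_left _ _) hn)
  have hn2 : 1000 ≤ n := le_trans (le_max_right _ _) hn
  obtain ⟨S, hS1, hS2, hS3⟩ := exists_family (n := n) 3 (n / 400) ∅ (by simp; omega)
  obtain ⟨A1', hA1's, hA1'c⟩ := exists_subset_card_eq (s := S 0) (n := n / 400 / 160)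
    (by rw [hS1]; exact Nat.div_le_self _ _)
  set D : Finset (Fin n × Finset (Fin n)) :=
    univ.image (fun v => (v, A1'.erase v)) ∪ univ.image (fun v => (v, (S 1).erase v)) with hD
  refine hG n hn0 s hs T D {S 2} ?_ ?_ ?_ ?_ ?_
  · have a1 := card_union_le (univ.image (fun v => (v, A1'.erase v)))
      (univ.image (fun v : Fin n => (v, (S 1).erase v)))
    have a4 : (univ.image (fun v => (v, A1'.erase v))).card ≤ n :=
      card_image_le.trans (by simp)
    have a5 : (univ.image (fun v : Fin n => (v, (S 1).erase v))).card ≤ n :=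
      card_image_le.trans (by simp)
    have : D.card ≤ 2 * n := by rw [hD]; omega
    nlinarith
  · intro d hd
    rw [hD, mem_union, mem_image, mem_image] at hd
    rcases hd with ⟨v, _, rfl⟩ | ⟨v, _, rfl⟩
    · refine ⟨?_, by simp⟩
      have := pred_card_le_card_erase (s := A1') (a := v)
      show s ≤ (A1'.erase v).card
      omega
    · refine ⟨?_, by simp⟩
      have := pred_card_le_card_erase (s := S 1) (a := v)
      have := hS1 1
      show s ≤ ((S 1).erase v).card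
      omega
  · simp; omega
  · intro R hR
    rw [mem_singleton] at hR
    subst hR
    rw [hS1]; omega
  · intro G hE hGD h4
    refine hP n hn1 s hs1 hs5 T hT hlv hdeg (S 0) A1' (S 1) (S 2) hA1's (hS1 _) (hS1 _) (hS1 _)
      hA1'c (hS3 _ _ (by decide)) (hS3 _ _ (by decide)) (hS3 _ _ (by decide)) G hE ?_ ?_ ?_
    · intro v
      exact hGD (v, A1'.erase v) (by
        rw [hD]; exact mem_union_left _ (mem_image_of_mem _ (mem_univ _)))
    · intro v
      exact hGD (v, (S 1).erase v) (by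
        rw [hD]; exact mem_union_right _ (mem_image_of_mem _ (mem_univ _)))
    · intro x y y' h1 h2 h3
      exact h4 (S 2) (by simp) x y y' h1 h2 h3

end Pool.Agent.TH451.MB
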