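import Pool.Agent.TH451.MB.CasePath

namespace Pool.Agent.TH451.MB
open Finset

/-- many pairwise far leaf parents, small demands -/
theorem case_small_far (hG : StGame) (hL : StLeafy2) :
    ∃ C n0 : ℕ, ∀ n ≥ n0, ∀ s : ℕ,
    C * (Nat.log 2 n + 1) ≤ s → 1 ≤ s → s ^ 20 ≤ n → 10 ^ 15 * s ^ 3 ≤ n →
    ∀ T : SimpleGraph (Fin n), T.IsTree → n < 1000 * (lv T).card →
    (∀ t, 10 ^ 10 * (nb T t univ).card ≤ n) →
    ∀ d : ℕ, d ≤ s → (univ.filter (fun t => d < (nb T t (lv T)).card)).card ≤ 39 →
    ∀ Y : Finset (Fin n), Y.card = 40 * s → (∀ x ∈ Y, ∀ y ∈ Y, x ≠ y → Far T x y) →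
    (∀ t ∈ Y, t ∉ lv T) → (∀ t ∈ Y, 1 ≤ (nb T t (lv T)).card) →
    (∀ t ∈ Y, (nb T t univ).card ≤ 10000 * s) → MakerWins T := by
  classical
  obtain ⟨C, n0, hG⟩ := plain_game hG
  obtain ⟨n1, hL⟩ := hL
  refine ⟨C, max n0 n1, ?_⟩
  intro n hn s hs hs1 hs20 hs3 T hT hlv hdeg d hds hfew Y hYc hYfar hYlv hYd hYdeg
  have hn0 : n0 ≤ n := le_trans (le_max_left _ _) hn
  have hn1 : n1 ≤ n := le_trans (le_max_right _ _) hn
  have hs2 : s ≤ s ^ 3 := by
    calc s = s * 1 := by ring
      _ ≤ s * s ^ 2 := Nat.mul_le_mul_left _ (Nat.one_le_pow _ _ hs1)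
      _ = s ^ 3 := by ring
  have hs2' : s * s ≤ s ^ 3 := by
    calc s * s = s * s * 1 := by ring
      _ ≤ s * s * s := Nat.mul_le_mul_left _ hs1
      _ = s ^ 3 := by ring
  have hns : 10 ^ 15 * s ≤ n := le_trans (Nat.mul_le_mul_left _ hs2) hs3
  have hnss : 10 ^ 15 * (s * s) ≤ n := le_trans (Nat.mul_le_mul_left _ hs2') hs3
  have hlvn : (lv T).card ≤ n := (card_le_univ _).trans (by simp)
  obtain ⟨Z, hZc, _⟩ := exists_avoid (n := n) ∅ (40 * s) (by simp; omega)
  obtain ⟨W0, hW0c, hW0d⟩ := exists_avoid (n := n) Z ((lv T).card / 4) (by omega)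
  obtain ⟨Rst, hRc, hRd⟩ := exists_avoid (n := n) (Z ∪ W0) (n / 100) (by
    have := card_union_le Z W0
    omega)
  rw [disjoint_union_right] at hRd
  set D : Finset (Fin n × Finset (Fin n)) :=
    univ.image (fun v => (v, Z.erase v)) ∪ univ.image (fun v => (v, W0.erase v)) ∪
    univ.image (fun v => (v, Rst.erase v)) with hD
  refine hG n hn0 s hs T D ∅ ?_ ?_ (by simp) (by simp) ?_
  · have a1 := card_union_le (univ.image (fun v => (v, Z.erase v)) ∪
      univ.image (fun v => (v, W0.erase v))) (univ.image (fun v => (v, Rst.erase v)))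
    have a2 := card_union_le (univ.image (fun v => (v, Z.erase v)))
      (univ.image (fun v => (v, W0.erase v)))
    have a4 : ∀ R : Finset (Fin n), (univ.image (fun v => (v, R.erase v))).card ≤ n :=
      fun R => card_image_le.trans (by simp)
    have b1 := a4 Z
    have b2 := a4 W0
    have b3 := a4 Rst
    have : D.card ≤ 3 * n := by rw [hD]; omega
    nlinarith
  · intro d hd
    rw [hD, mem_union, mem_union, mem_image, mem_image, mem_image] at hd
    rcases hd with (⟨v, _, rfl⟩ | ⟨v, _, rfl⟩) | ⟨v, _, rfl⟩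
    · refine ⟨?_, by simp⟩
      have := pred_card_le_card_erase (s := Z) (a := v)
      show s ≤ (Z.erase v).card
      omega
    · refine ⟨?_, by simp⟩
      have := pred_card_le_card_erase (s := W0) (a := v)
      show s ≤ (W0.erase v).card
      omega
    · refine ⟨?_, by simp⟩
      have := pred_card_le_card_erase (s := Rst) (a := v)
      show s ≤ (Rst.erase v).card
      omega
  · intro G hE hGD _
    have hDZ : ∀ v, Z.card ≤ 40 * (nb G v Z).card + 1 ∧ (v ∉ Z → Z.card ≤ 40 * (nb G v Z).card) := by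
      intro v
      have h1 := hGD (v, Z.erase v) (by
        rw [hD]; exact mem_union_left _ (mem_union_left _ (mem_image_of_mem _ (mem_univ _))))
      simp only at h1
      rw [nb_erase_self] at h1
      have := pred_card_le_card_erase (s := Z) (a := v)
      refine ⟨by omega, ?_⟩
      intro hv
      rw [erase_eq_of_notMem hv] at h1
      exact h1
    have hDW : ∀ v, W0.card ≤ 40 * (nb G v W0).card + 1 := by
      intro v
      have h1 := hGD (v, W0.erase v) (by
        rw [hD]; exact mem_union_left _ (mem_union_right _ (mem_image_of_mem _ (mem_univ _))))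
      simp only at h1
      rw [nb_erase_self] at h1
      have := pred_card_le_card_erase (s := W0) (a := v)
      omega
    have hDR : ∀ v, Rst.card ≤ 40 * (nb G v Rst).card + 1 := by
      intro v
      have h1 := hGD (v, Rst.erase v) (by
        rw [hD]; exact mem_union_right _ (mem_image_of_mem _ (mem_univ _)))
      simp only at h1
      rw [nb_erase_self] at h1
      have := pred_card_le_card_erase (s := Rst) (a := v)
      omega
    -- the bijection Y → Z
    have hequiv : Nonempty (Y ≃ Z) := ⟨equivOfCardEq (by rw [hYc, hZc])⟩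
    obtain ⟨eqv⟩ := hequiv
    set φ₀ : Fin n → Fin n := fun t => if h : t ∈ Y then (eqv ⟨t, h⟩ : Fin n) else t with hφ
    have hφY : ∀ t (h : t ∈ Y), φ₀ t = (eqv ⟨t, h⟩ : Fin n) := by
      intro t h
      simp [hφ, h]
    have hφZ : ∀ t ∈ Y, φ₀ t ∈ Z := by
      intro t h
      rw [hφY t h]
      exact (eqv ⟨t, h⟩).2
    have hinj : Set.InjOn φ₀ (Y : Set (Fin n)) := by
      intro a ha c hc hac
      rw [hφY a ha, hφY c hc] at hac
      have := eqv.injective (Subtype.ext hac)
      simpa using this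
    have hsurj : ∀ z ∈ Z, ∃ t ∈ Y, φ₀ t = z := by
      intro z hz
      refine ⟨(eqv.symm ⟨z, hz⟩ : Fin n), (eqv.symm ⟨z, hz⟩).2, ?_⟩
      rw [hφY _ (eqv.symm ⟨z, hz⟩).2]
      simp
    have hPim : Y.image φ₀ = Z := by
      ext z
      rw [mem_image]
      constructor
      · rintro ⟨t, ht, rfl⟩; exact hφZ t ht
      · intro hz; exact hsurj z hz
    have hYinter : Y ∩ lv T = ∅ := by
      rw [← disjoint_iff_inter_eq_empty, disjoint_left]
      exact hYlv
    refine hL n hn1 s hs1 hs20 T hT hlv hdeg d hds hfew ∅ Y (by simp) (by simp) (by omega)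
      (by rw [hYinter]; simp) (fun t ht ht' => absurd ht' (hYlv t ht)) ?_ ?_ φ₀ hinj W0
      (by rw [hPim]; exact hW0d) (by omega) G (by simpa using hE) ?_ ?_ ?_ ?_
    · have h1 : ∑ c ∈ Y, (nb T c univ).card ≤ ∑ c ∈ Y, 10000 * s := sum_le_sum hYdeg
      rw [sum_const, smul_eq_mul, hYc] at h1
      calc 10 ^ 8 * ∑ c ∈ Y, (nb T c univ).card ≤ 10 ^ 8 * (40 * s * (10000 * s)) :=
            Nat.mul_le_mul_left _ h1
        _ = 4 * 10 ^ 13 * (s * s) := by ring
        _ ≤ 10 ^ 15 * (s * s) := Nat.mul_le_mul_right _ (by norm_num)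
        _ ≤ n := hnss
    · intro t _ a ha c hc hta htc
      by_contra hac
      exact (hYfar a ha c hc hac).2 t ⟨hta.symm, htc.symm⟩
    · intro a ha c hc hac
      exact absurd hac (hYfar a ha c hc hac.ne).1
    · intro v
      have := hDW v
      omega
    · intro c hc
      rw [hPim]
      have h1 : (nb G (φ₀ c) Rst).card ≤ (nb G (φ₀ c) (univ \ (W0 ∪ Z))).card := by
        apply card_le_card
        apply nb_mono
        intro x hx
        rw [mem_sdiff, mem_union, not_or]
        exact ⟨mem_univ _, disjoint_left.mp hRd.2 hx, disjoint_left.mp hRd.1 hx⟩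
      have := hDR (φ₀ c)
      omega
    · intro w hw
      rw [hPim] at hw
      have h1 := (hDZ w).2 hw
      refine ⟨Y.filter (fun t => φ₀ t ∈ nb G w Z), filter_subset _ _, ?_, ?_⟩
      · have h2 : nb G w Z ⊆ (Y.filter (fun t => φ₀ t ∈ nb G w Z)).image φ₀ := by
          intro z hz
          obtain ⟨t, ht, rfl⟩ := hsurj z (nb_subset hz)
          rw [mem_image]
          exact ⟨t, by rw [mem_filter]; exact ⟨ht, hz⟩, rfl⟩
        have h3 := (card_le_card h2).trans card_image_le
        omega
      · intro t ht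
        rw [mem_filter] at ht
        refine ⟨?_, ?_⟩
        · have h4 : nb T t (lv T) ⊆ nb T t (lv T \ Y) := by
            apply nb_mono
            intro x hx
            rw [mem_sdiff]
            exact ⟨hx, fun h => hYlv x h hx⟩
          exact (hYd t ht.1).trans (card_le_card h4)
        · have := ht.2
          rw [mem_nb] at this
          exact this.2.symm

end Pool.Agent.TH451.MB
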