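import Pool.Agent.TH451.MB.CaseBig

namespace Pool.Agent.TH451.MB
open Finset

/-- a vertex with many neighbours that are leaf parents, small demands -/
theorem case_small_star (hG : StGame) (hPS : StPhaseStar) (hL : StLeafy2) (hSC : StStarClosed)
    (hLS : StLeafStructure) :
    ∃ C n0 : ℕ, ∀ n ≥ n0, ∀ s : ℕ,
    C * (Nat.log 2 n + 1) ≤ s → 1 ≤ s → s ^ 20 ≤ n → 10 ^ 15 * s ^ 3 ≤ n →
    ∀ T : SimpleGraph (Fin n), T.IsTree → n < 1000 * (lv T).card →
    (∀ t, 10 ^ 10 * (nb T t univ).card ≤ n) →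
    ∀ d : ℕ, d ≤ s → (univ.filter (fun t => d < (nb T t (lv T)).card)).card ≤ 39 →
    ∀ (p : Fin n) (Y Y0 : Finset (Fin n)), Y.card = 3 → Y0.card = 80 * s → Disjoint Y Y0 →
    p ∉ lv T → (∀ y ∈ Y ∪ Y0, T.Adj p y) →
    (∀ t ∈ Y ∪ Y0, t ∉ lv T) → (∀ t ∈ Y ∪ Y0, 1 ≤ (nb T t (lv T)).card) →
    (∀ t ∈ Y ∪ Y0, (nb T t univ).card ≤ 10000 * s) → MakerWins T := by
  classical
  obtain ⟨C, n0, hG⟩ := hub_game hG
  obtain ⟨n1, hL⟩ := hL
  refine ⟨C, max (max n0 n1) 1000, ?_⟩
  intro n hn s hs hs1 hs20 hs3 T hT hlv hdeg d hds hfew p Y Y0 hYc hY0c hYY0 hplv hpYY hYYlv hYYd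
    hYYdeg
  have hn0 : n0 ≤ n := le_trans (le_max_left _ _) (le_trans (le_max_left _ _) hn)
  have hn1 : n1 ≤ n := le_trans (le_max_right _ _) (le_trans (le_max_left _ _) hn)
  have hn2 : 1000 ≤ n := le_trans (le_max_right _ _) hn
  have hs2 : s ≤ s ^ 3 := by
    calc s = s * 1 := by ring
      _ ≤ s * s ^ 2 := Nat.mul_le_mul_left _ (Nat.one_le_pow _ _ hs1)
      _ = s ^ 3 := by ring
  have hs2' : s * s ≤ s ^ 3 := by
    calc s * s = s * s * 1 := by ring
      _ ≤ s * s * s := Nat.mul_le_mul_left _ hs1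
      _ = s ^ 3 := by ring
  have hns : 10 ^ 15 * s ≤ n := le_trans (Nat.mul_le_mul_left _ hs2) hs3
  have hnss : 10 ^ 15 * (s * s) ≤ n := le_trans (Nat.mul_le_mul_left _ hs2') hs3
  have hpY : ∀ y ∈ Y, T.Adj p y := fun y hy => hpYY y (mem_union_left _ hy)
  -- leaves have a unique neighbour
  have huniq : ∀ u ∈ lv T, ∀ a b, T.Adj u a → T.Adj u b → a = b := by
    intro u hu a b ha hb
    rw [lv, mem_filter] at hu
    obtain ⟨c, _, hc⟩ := (hLS T hT (by omega) u).2 hu.2
    rw [(hc a).mp ha, (hc b).mp hb]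
  refine hPS (by omega) T ?_
  intro v0 q1 q2 q3 hnd B0 hB0 hB0c hMB htwo
  set q : Fin 3 → Fin n := ![q1, q2, q3] with hq
  have hnd' : v0 ≠ q1 ∧ v0 ≠ q2 ∧ v0 ≠ q3 ∧ q1 ≠ q2 ∧ q1 ≠ q3 ∧ q2 ≠ q3 := by
    simp only [List.nodup_cons, List.mem_cons, List.not_mem_nil, or_false, not_or,
      not_false_eq_true, List.nodup_nil, and_true] at hnd
    tauto
  obtain ⟨h01, h02, h03, h12, h13, h23⟩ := hnd'
  have hqinj : Function.Injective q := by
    intro i j hij
    fin_cases i <;> fin_cases j <;> simp [hq] at hij ⊢ <;> tauto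
  have hq0 : ∀ i, q i ≠ v0 := by
    intro i
    fin_cases i <;> simp [hq] <;> tauto
  have hqim : univ.image q = {q1, q2, q3} := by
    ext x
    simp only [mem_image, mem_univ, true_and, mem_insert, mem_singleton]
    constructor
    · rintro ⟨i, rfl⟩
      fin_cases i <;> simp [hq]
    · rintro (rfl | rfl | rfl)
      · exact ⟨0, rfl⟩
      · exact ⟨1, rfl⟩
      · exact ⟨2, rfl⟩
  have hpnYY : p ∉ Y ∪ Y0 := fun h => (hpYY p h).ne rfl
  have hpnY : p ∉ Y := fun h => hpnYY (mem_union_left _ h)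
  have hpnY0 : p ∉ Y0 := fun h => hpnYY (mem_union_right _ h)
  set y : Fin 3 → Fin n := fun i => Y.orderEmbOfFin hYc i with hy
  have hyinj : Function.Injective y := (Y.orderEmbOfFin hYc).injective
  have hyY : ∀ i, y i ∈ Y := fun i => orderEmbOfFin_mem Y hYc i
  have hyp : ∀ i, y i ≠ p := fun i h => hpnY (h ▸ hyY i)
  have hYim : univ.image y = Y := by
    apply eq_of_subset_of_card_le
    · intro t ht
      rw [mem_image] at ht
      obtain ⟨i, _, rfl⟩ := ht
      exact hyY i
    · rw [card_image_of_injective _ hyinj, hYc]; simp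
  have hYmem : ∀ t ∈ Y, ∃ i, y i = t := by
    intro t ht
    rw [← hYim, mem_image] at ht
    obtain ⟨i, _, rfl⟩ := ht
    exact ⟨i, rfl⟩
  have hM0 : ({s(v0, q1), s(v0, q2), s(v0, q3)} : Finset (Sym2 (Fin n))) ⊆ board n := by
    intro e he
    simp only [mem_insert, mem_singleton] at he
    simp only [board, mem_filter, mem_univ, true_and]
    rcases he with rfl | rfl | rfl <;> simpa
  -- touched vertices
  set Tv : Finset (Fin n) := univ.filter (fun v => ∃ b ∈ B0, v ∈ b) with hTv
  have hTvc : Tv.card ≤ 6 := by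
    have h1 : ∀ f : Sym2 (Fin n), (univ.filter (fun v => v ∈ f)).card ≤ 2 := by
      intro f
      induction f with | _ x y
      have : (univ.filter (fun v => v ∈ s(x, y))) ⊆ {x, y} := by
        intro v hv
        simp at hv
        simpa using hv
      exact (card_le_card this).trans (card_le_two)
    have h2 : Tv ⊆ B0.biUnion (fun b => univ.filter (fun v => v ∈ b)) := by
      intro v hv
      rw [hTv, mem_filter] at hv
      obtain ⟨_, b, hb, hvb⟩ := hv
      rw [mem_biUnion]
      exact ⟨b, hb, by rw [mem_filter]; exact ⟨mem_univ _, hvb⟩⟩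
    have h3 := (card_le_card h2).trans card_biUnion_le
    have h4 : ∑ b ∈ B0, (univ.filter (fun v => v ∈ b)).card ≤ ∑ b ∈ B0, 2 :=
      sum_le_sum (fun b _ => h1 b)
    rw [sum_const, smul_eq_mul] at h4
    omega
  have hM0not : ∀ x, x ∉ univ.image q → x ≠ v0 → ∀ i,
      s(x, q i) ∉ ({s(v0, q1), s(v0, q2), s(v0, q3)} : Finset (Sym2 (Fin n))) := by
    intro x hx hx0 i h
    have hx' : x ≠ q1 ∧ x ≠ q2 ∧ x ≠ q3 := by
      rw [hqim] at hx
      simpa using hx
    simp only [mem_insert, mem_singleton, Sym2.eq_iff] at h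
    rcases h with (h | h) | (h | h) | (h | h)
    · exact hx0 h.1
    · exact hx'.1 h.1
    · exact hx0 h.1
    · exact hx'.2.1 h.1
    · exact hx0 h.1
    · exact hx'.2.2 h.1
  refine hG n hn0 s hs hs1 (by omega) T (lv T).card hlv ((card_le_univ _).trans (by simp)) q hqinj
    {v0}
    (by simp) (by simpa using hq0) {s(v0, q1), s(v0, q2), s(v0, q3)} B0 hB0c hM0 hB0 hMB
    Tv hTvc ?_ ?_ (80 * s) (by omega) (by omega) ?_
  · intro x hx hx0 hxT i
    rw [mem_union, not_or]
    refine ⟨hM0not x hx (by simpa using hx0) i, ?_⟩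
    intro hb
    apply hxT
    rw [hTv, mem_filter]
    exact ⟨mem_univ _, _, hb, by simp⟩
  · intro x hx hx0
    have hx0' : x ≠ v0 := by simpa using hx0
    have hx' : x ≠ q1 ∧ x ≠ q2 ∧ x ≠ q3 := by
      rw [hqim] at hx
      simpa using hx
    have h3 := htwo x (by simp; tauto)
    rcases h3 with h | h | h
    · exact ⟨0, 1, by decide, by rw [mem_union, not_or]; exact ⟨hM0not x hx hx0' 0, h.1⟩,
        by rw [mem_union, not_or]; exact ⟨hM0not x hx hx0' 1, h.2⟩⟩
    · exact ⟨0, 2, by decide, by rw [mem_union, not_or]; exact ⟨hM0not x hx hx0' 0, h.1⟩,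
        by rw [mem_union, not_or]; exact ⟨hM0not x hx hx0' 2, h.2⟩⟩
    · exact ⟨1, 2, by decide, by rw [mem_union, not_or]; exact ⟨hM0not x hx hx0' 1, h.1⟩,
        by rw [mem_union, not_or]; exact ⟨hM0not x hx hx0' 2, h.2⟩⟩
  · intro W0 Z hW0 hZ hZW hZc h2W G hE hnbW hnbR hp4 hdom hM
    rw [disjoint_union_right] at hZ
    have hGpy : ∀ i, G.Adj v0 (q i) := by
      intro i
      have := hM (s(v0, q i)) (by fin_cases i <;> simp [hq])
      simpa using this
    have hv0q : v0 ∉ univ.image q := by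
      rw [mem_image]
      rintro ⟨i, _, hi⟩
      exact hq0 i hi
    have hZv0 : v0 ∉ Z := fun h => disjoint_left.mp hZ.2 h (by simp)
    have hZq : ∀ i, q i ∉ Z := fun i h => disjoint_left.mp hZ.1 h (mem_image_of_mem _ (mem_univ _))
    -- the bijection Y0 → Z
    obtain ⟨eqv⟩ : Nonempty (Y0 ≃ Z) := ⟨equivOfCardEq (by rw [hY0c, hZc])⟩
    set ψ : Fin n → Fin n := fun t => if h : t ∈ Y0 then (eqv ⟨t, h⟩ : Fin n) else t with hψ
    have hψY : ∀ t (h : t ∈ Y0), ψ t = (eqv ⟨t, h⟩ : Fin n) := by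
      intro t h
      simp [hψ, h]
    have hψZ : ∀ t ∈ Y0, ψ t ∈ Z := by
      intro t h
      rw [hψY t h]
      exact (eqv ⟨t, h⟩).2
    have hψinj : ∀ a ∈ Y0, ∀ c ∈ Y0, ψ a = ψ c → a = c := by
      intro a ha c hc hac
      rw [hψY a ha, hψY c hc] at hac
      have := eqv.injective (Subtype.ext hac)
      simpa using this
    have hψsurj : ∀ z ∈ Z, ∃ t ∈ Y0, ψ t = z := by
      intro z hz
      refine ⟨(eqv.symm ⟨z, hz⟩ : Fin n), (eqv.symm ⟨z, hz⟩).2, ?_⟩
      rw [hψY _ (eqv.symm ⟨z, hz⟩).2]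
      simp
    set Y1 : Finset (Fin n) := Y0.filter (fun t => ψ t ∈ nb G v0 Z) with hY1
    have hY1Y0 : Y1 ⊆ Y0 := filter_subset _ _
    have hY1adj : ∀ t ∈ Y1, G.Adj v0 (ψ t) := by
      intro t ht
      rw [hY1, mem_filter, mem_nb] at ht
      exact ht.2.2
    -- the bad vertex
    set Bad : Fin n → Prop := fun w => w ∉ univ.image q ∧ w ≠ v0 ∧ w ∉ nb G v0 Z ∧
      80 * (cnb G v0 w Z).card < Z.card with hBad
    have hBadu : ∀ w w', Bad w → Bad w' → w = w' := by
      intro w w' hw hw'
      by_contra hne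
      have h1 := hp4 v0 w w' hv0q hw.1 hw'.1 hw.2.1.symm hw'.2.1.symm hne
      have h2 : lnb G v0 w w' Z ⊆ cnb G v0 w Z ∪ cnb G v0 w' Z := by
        intro z hz
        rw [mem_lnb] at hz
        rw [mem_union, mem_cnb, mem_cnb]
        rcases hz.2.2 with h | h
        · left; exact ⟨hz.1, hz.2.1, h⟩
        · right; exact ⟨hz.1, hz.2.1, h⟩
      have h3 := (card_le_card h2).trans (card_union_le _ _)
      have h4 := hw.2.2.2
      have h5 := hw'.2.2.2
      omega
    obtain ⟨wst, Λ, hΛc, hΛ, hΛb⟩ : ∃ (wst : Fin n) (Λ : Finset (Fin n)), Λ.card ≤ 1 ∧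
        (∀ u ∈ Λ, u ∈ lv T ∧ Bad wst ∧ ∃ i, T.Adj u (y i) ∧ G.Adj wst (q i)) ∧
        (∀ w, Bad w → Λ.Nonempty ∧ w = wst) := by
      by_cases hex : ∃ w, Bad w
      · obtain ⟨w, hw⟩ := hex
        obtain ⟨i, hi⟩ := hdom w hw.1 (by simpa using hw.2.1)
        have h1 := hYYd (y i) (mem_union_left _ (hyY i))
        obtain ⟨u, hu⟩ := card_pos.mp h1
        rw [mem_nb] at hu
        refine ⟨w, {u}, by simp, ?_, ?_⟩
        · intro u' hu'
          rw [mem_singleton] at hu'
          subst hu'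
          exact ⟨hu.1, hw, i, hu.2.symm, hi⟩
        · intro w' hw'
          exact ⟨by simp, hBadu w' w hw' hw⟩
      · refine ⟨v0, ∅, by simp, by simp, ?_⟩
        intro w hw
        exact absurd ⟨w, hw⟩ hex
    -- positions
    set φ₀ : Fin n → Fin n := fun t => if t = p then v0 else if t ∈ Y then
      Function.extend y q id t else if t ∈ Y0 then ψ t else wst with hφ
    have hφp : φ₀ p = v0 := by simp [hφ]
    have hφy : ∀ i, φ₀ (y i) = q i := by
      intro i
      rw [hφ]
      simp only [if_neg (hyp i), if_pos (hyY i)]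
      exact hyinj.extend_apply q id i
    have hY0p : ∀ t ∈ Y0, t ≠ p := fun t ht h => hpnY0 (h ▸ ht)
    have hY0Y : ∀ t ∈ Y0, t ∉ Y := fun t ht h => disjoint_left.mp hYY0 h ht
    have hφ0 : ∀ t ∈ Y0, φ₀ t = ψ t := by
      intro t ht
      rw [hφ]
      simp only [if_neg (hY0p t ht), if_neg (hY0Y t ht), if_pos ht]
    have hΛlv : ∀ u ∈ Λ, u ∈ lv T := fun u hu => (hΛ u hu).1
    have hΛp : ∀ u ∈ Λ, u ≠ p := fun u hu h => hplv (h ▸ hΛlv u hu)
    have hΛY : ∀ u ∈ Λ, u ∉ Y := fun u hu h => hYYlv u (mem_union_left _ h) (hΛlv u hu)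
    have hΛY0 : ∀ u ∈ Λ, u ∉ Y0 := fun u hu h => hYYlv u (mem_union_right _ h) (hΛlv u hu)
    have hφΛ : ∀ u ∈ Λ, φ₀ u = wst := by
      intro u hu
      rw [hφ]
      simp only [if_neg (hΛp u hu), if_neg (hΛY u hu), if_neg (hΛY0 u hu)]
    have hYφ : Y.image φ₀ = univ.image q := by
      rw [← hYim, image_image]
      apply image_congr
      intro i _
      exact hφy i
    set P : Finset (Fin n) := insert p (Y ∪ Y1) ∪ Λ with hP
    have hmemP : ∀ t, t ∈ P ↔ t = p ∨ t ∈ Y ∨ t ∈ Y1 ∨ t ∈ Λ := by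
      intro t
      rw [hP, mem_union, mem_insert, mem_union]
      tauto
    have hwst : ∀ u ∈ Λ, Bad wst := fun u hu => (hΛ u hu).2.1
    have hinj : Set.InjOn φ₀ (P : Set (Fin n)) := by
      have key : ∀ a c, a ∈ P → c ∈ P → φ₀ a = φ₀ c → a = c := by
        intro a c ha hc hac
        rw [hmemP] at ha hc
        rcases ha with rfl | ha | ha | ha
        · rcases hc with rfl | hc | hc | hc
          · rfl
          · obtain ⟨j, rfl⟩ := hYmem c hc
            rw [hφp, hφy] at hac
            exact absurd hac.symm (hq0 j)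
          · rw [hφp, hφ0 c (hY1Y0 hc)] at hac
            exact absurd (hac ▸ hψZ c (hY1Y0 hc)) hZv0
          · rw [hφp, hφΛ c hc] at hac
            exact absurd hac.symm (hwst c hc).2.1
        · obtain ⟨i, rfl⟩ := hYmem a ha
          rcases hc with rfl | hc | hc | hc
          · rw [hφp, hφy] at hac
            exact absurd hac (hq0 i)
          · obtain ⟨j, rfl⟩ := hYmem c hc
            rw [hφy, hφy] at hac
            rw [hqinj hac]
          · rw [hφy, hφ0 c (hY1Y0 hc)] at hac
            exact absurd (hac ▸ hψZ c (hY1Y0 hc)) (hZq i)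
          · rw [hφy, hφΛ c hc] at hac
            exact absurd (by rw [← hac]; exact mem_image_of_mem _ (mem_univ _)) (hwst c hc).1
        · have haZ := hψZ a (hY1Y0 ha)
          rw [hφ0 a (hY1Y0 ha)] at hac
          rcases hc with rfl | hc | hc | hc
          · rw [hφp] at hac
            exact absurd (hac ▸ haZ) hZv0
          · obtain ⟨j, rfl⟩ := hYmem c hc
            rw [hφy] at hac
            exact absurd (hac ▸ haZ) (hZq j)
          · rw [hφ0 c (hY1Y0 hc)] at hac
            exact hψinj a (hY1Y0 ha) c (hY1Y0 hc) hac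
          · rw [hφΛ c hc] at hac
            exact absurd (by rw [← hac]; exact (mem_filter.mp ha).2) (hwst c hc).2.2.1
        · rw [hφΛ a ha] at hac
          rcases hc with rfl | hc | hc | hc
          · rw [hφp] at hac
            exact absurd hac (hwst a ha).2.1
          · obtain ⟨j, rfl⟩ := hYmem c hc
            rw [hφy] at hac
            exact absurd (by rw [hac]; exact mem_image_of_mem _ (mem_univ _)) (hwst a ha).1
          · rw [hφ0 c (hY1Y0 hc)] at hac
            exact absurd (by rw [hac]; exact (mem_filter.mp hc).2) (hwst a ha).2.2.1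
          · exact card_le_one.mp hΛc a ha c hc
      intro a ha c hc hac
      exact key a c ha hc hac
    set W1 : Finset (Fin n) := W0.erase wst with hW1
    have hW0P : ∀ x ∈ W1, x ∉ P.image φ₀ := by
      intro x hx hx'
      rw [hW1, mem_erase] at hx
      rw [disjoint_union_right] at hW0
      rw [mem_image] at hx'
      obtain ⟨t, ht, rfl⟩ := hx'
      rw [hmemP] at ht
      rcases ht with rfl | ht | ht | ht
      · rw [hφp] at hx
        exact disjoint_left.mp hW0.2 hx.2 (by simp)
      · obtain ⟨j, rfl⟩ := hYmem t ht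
        rw [hφy] at hx
        exact disjoint_left.mp hW0.1 hx.2 (mem_image_of_mem _ (mem_univ _))
      · rw [hφ0 t (hY1Y0 ht)] at hx
        exact disjoint_left.mp hZW (hψZ t (hY1Y0 ht)) hx.2
      · rw [hφΛ t ht] at hx
        exact hx.1 rfl
    have hY1c : Y1.card ≤ 80 * s := by
      rw [← hY0c]; exact card_le_card hY1Y0
    have hPc : P.card ≤ 80 * s + 5 := by
      have h1 := card_union_le (insert p (Y ∪ Y1)) Λ
      have h2 := card_insert_le p (Y ∪ Y1)
      have h3 := card_union_le Y Y1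
      rw [hP]
      omega
    have hYY1 : ∀ t ∈ Y ∪ Y1, t ∈ Y ∪ Y0 := by
      intro t ht
      rw [mem_union] at ht ⊢
      rcases ht with h | h
      · left; exact h
      · right; exact hY1Y0 h
    have hadjY : ∀ t ∈ Y ∪ Y1, T.Adj p t := fun t ht => hpYY t (hYY1 t ht)
    have hclosed0 : ∀ t, t ∉ Y ∪ Y1 → t ≠ p → ∀ a ∈ insert p (Y ∪ Y1), ∀ b ∈ insert p (Y ∪ Y1),
        T.Adj t a → T.Adj t b → a = b := fun t ht htp => hSC (Fin n) T hT.2 p (Y ∪ Y1) hadjY t ht htp
    have hindep : ∀ a ∈ Y ∪ Y1, ∀ c ∈ Y ∪ Y1, ¬ T.Adj a c := by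
      intro a ha c hc hac
      have h1 := hSC (Fin n) T hT.2 p ((Y ∪ Y1).erase a)
        (fun y' hy' => hadjY y' (mem_of_mem_erase hy'))
        a (by simp) (fun h => hpnYY (h ▸ hYY1 a ha)) p (mem_insert_self _ _) c
        (mem_insert_of_mem (mem_erase.mpr ⟨hac.ne', hc⟩)) (hadjY _ ha).symm hac
      exact hpnYY (h1 ▸ hYY1 c hc)
    have hΛP : ∀ u ∈ Λ, ∀ c, T.Adj u c → ∃ i, c = y i ∧ G.Adj wst (q i) := by
      intro u hu c huc
      obtain ⟨_, _, i, hi, hi'⟩ := hΛ u hu
      exact ⟨i, huniq u (hΛlv u hu) _ _ huc hi, hi'⟩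
    refine hL n hn1 s hs1 hs20 T hT hlv hdeg d hds hfew Y P ?_ (by omega) (by omega) ?_ ?_ ?_ ?_
      φ₀ hinj W1 (by rw [disjoint_left]; exact hW0P) ?_ G (by rw [hYφ]; exact hE) ?_ ?_ ?_ ?_
    · intro t ht
      rw [hmemP]; tauto
    · have h1 : P ∩ lv T ⊆ Λ := by
        intro t ht
        rw [mem_inter, hmemP] at ht
        obtain ⟨ht | ht | ht | ht, htl⟩ := ht
        · exact absurd (ht ▸ htl) hplv
        · exact absurd htl (hYYlv t (mem_union_left _ ht))
        · exact absurd htl (hYYlv t (mem_union_right _ (hY1Y0 ht)))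
        · exact ht
      exact (card_le_card h1).trans hΛc
    · intro t ht htl
      rw [hmemP] at ht
      rcases ht with ht | ht | ht | ht
      · exact absurd (ht ▸ htl) hplv
      · exact absurd htl (hYYlv t (mem_union_left _ ht))
      · exact absurd htl (hYYlv t (mem_union_right _ (hY1Y0 ht)))
      · obtain ⟨_, _, i, hi, _⟩ := hΛ t ht
        exact ⟨y i, by rw [hmemP]; right; left; exact hyY i, hi⟩
    · -- sum of degrees
      have h1 : ∑ c ∈ P, (nb T c univ).card ≤
          (nb T p univ).card + ∑ c ∈ P.erase p, (nb T c univ).card :=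
        (add_sum_erase P (fun c => (nb T c univ).card) (by rw [hmemP]; left; rfl)).ge
      have h2 : ∑ c ∈ P.erase p, (nb T c univ).card ≤ ∑ c ∈ P.erase p, 10000 * s := by
        apply sum_le_sum
        intro c hc
        rw [mem_erase, hmemP] at hc
        obtain ⟨hcp, hc | hc | hc | hc⟩ := hc
        · exact absurd hc hcp
        · exact hYYdeg c (mem_union_left _ hc)
        · exact hYYdeg c (mem_union_right _ (hY1Y0 hc))
        · have := hΛlv c hc
          rw [lv, mem_filter] at this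
          omega
      rw [sum_const, smul_eq_mul] at h2
      have h3 : (P.erase p).card ≤ 85 * s := by
        have := card_erase_le (s := P) (a := p)
        omega
      have h4 : (P.erase p).card * (10000 * s) ≤ 85 * s * (10000 * s) := Nat.mul_le_mul_right _ h3
      have h5 : 85 * s * (10000 * s) = 850000 * (s * s) := by ring
      have h6 := hdeg p
      omega
    · intro t ht a ha c hc hta htc
      rw [hmemP] at ht
      push Not at ht
      by_cases haΛ : a ∈ Λ
      · obtain ⟨i, hi, _⟩ := hΛP a haΛ t hta.symm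
        exact absurd (hi ▸ hyY i) ht.2.1
      by_cases hcΛ : c ∈ Λ
      · obtain ⟨i, hi, _⟩ := hΛP c hcΛ t htc.symm
        exact absurd (hi ▸ hyY i) ht.2.1
      have ha' : a ∈ insert p (Y ∪ Y1) := by
        rw [hP, mem_union] at ha; tauto
      have hc' : c ∈ insert p (Y ∪ Y1) := by
        rw [hP, mem_union] at hc; tauto
      exact hclosed0 t (by rw [mem_union]; tauto) ht.1 a ha' c hc' hta htc
    · have := card_erase_le (s := W0) (a := wst)
      rw [hW1]; omega
    · intro a ha c hc hac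
      by_cases haΛ : a ∈ Λ
      · obtain ⟨i, rfl, hi⟩ := hΛP a haΛ c hac
        rw [hφΛ a haΛ, hφy]; exact hi
      by_cases hcΛ : c ∈ Λ
      · obtain ⟨i, rfl, hi⟩ := hΛP c hcΛ a hac.symm
        rw [hφΛ c hcΛ, hφy]; exact hi.symm
      have hadjφ : ∀ t ∈ Y ∪ Y1, G.Adj v0 (φ₀ t) := by
        intro t ht
        rw [mem_union] at ht
        rcases ht with ht | ht
        · obtain ⟨i, rfl⟩ := hYmem t ht
          rw [hφy]; exact hGpy i
        · rw [hφ0 t (hY1Y0 ht)]; exact hY1adj t ht
      have ha' : a = p ∨ a ∈ Y ∪ Y1 := by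
        rw [hP, mem_union, mem_insert] at ha; tauto
      have hc' : c = p ∨ c ∈ Y ∪ Y1 := by
        rw [hP, mem_union, mem_insert] at hc; tauto
      rcases ha' with rfl | ha'
      · rcases hc' with rfl | hc'
        · exact absurd rfl hac.ne
        · rw [hφp]; exact hadjφ c hc'
      · rcases hc' with rfl | hc'
        · rw [hφp]; exact (hadjφ a ha').symm
        · exact absurd hac (hindep a ha' c hc')
    · intro v
      have h1 := hnbW v
      have h2 : nb G v W0 ⊆ insert wst (nb G v W1) := by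
        intro z hz
        rw [mem_nb] at hz
        rw [mem_insert, mem_nb, hW1, mem_erase]
        by_cases hzw : z = wst
        · left; exact hzw
        · right; exact ⟨⟨hzw, hz.1⟩, hz.2⟩
      have h3 := (card_le_card h2).trans (card_insert_le _ _)
      omega
    · intro c hc
      have h1 := hnbR (φ₀ c) (P.image φ₀) (card_image_le.trans (by omega))
      have h2 : (nb G (φ₀ c) (univ \ (W0 ∪ P.image φ₀))).card ≤
          (nb G (φ₀ c) (univ \ (W1 ∪ P.image φ₀))).card := by
        apply card_le_card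
        apply nb_mono
        intro x hx
        rw [mem_sdiff, mem_union, not_or] at hx ⊢
        exact ⟨mem_univ _, fun h => hx.2.1 (mem_of_mem_erase h), hx.2.2⟩
      omega
    · intro w hw
      have hwnb : ¬ Bad w := by
        intro hb
        obtain ⟨⟨u, hu⟩, hw'⟩ := hΛb w hb
        apply hw
        rw [mem_image]
        exact ⟨u, by rw [hmemP]; tauto, by rw [hφΛ u hu, hw']⟩
      have hwq : w ∉ univ.image q := by
        intro h
        rw [mem_image] at h
        obtain ⟨i, _, rfl⟩ := h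
        apply hw
        rw [mem_image]
        exact ⟨y i, by rw [hmemP]; right; left; exact hyY i, hφy i⟩
      have hwv0 : w ≠ v0 := by
        rintro rfl
        apply hw
        rw [mem_image]
        exact ⟨p, by rw [hmemP]; left; rfl, hφp⟩
      have hwnbZ : w ∉ nb G v0 Z := by
        intro h
        obtain ⟨t, ht, rfl⟩ := hψsurj w (nb_subset h)
        apply hw
        rw [mem_image]
        refine ⟨t, ?_, hφ0 t ht⟩
        rw [hmemP]
        right; right; left
        rw [hY1, mem_filter]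
        exact ⟨ht, h⟩
      have hcn : Z.card ≤ 80 * (cnb G v0 w Z).card := by
        by_contra hlt
        push Not at hlt
        exact hwnb ⟨hwq, hwv0, hwnbZ, hlt⟩
      refine ⟨Y1.filter (fun t => ψ t ∈ cnb G v0 w Z), ?_, ?_, ?_⟩
      · intro t ht
        rw [hmemP]
        right; right; left
        exact (mem_filter.mp ht).1
      · have h2 : cnb G v0 w Z ⊆ (Y1.filter (fun t => ψ t ∈ cnb G v0 w Z)).image ψ := by
          intro z hz
          have hz' := hz
          rw [mem_cnb] at hz'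
          obtain ⟨t, ht, rfl⟩ := hψsurj z hz'.1
          rw [mem_image]
          refine ⟨t, ?_, rfl⟩
          rw [mem_filter, hY1, mem_filter, mem_nb]
          exact ⟨⟨ht, hz'.1, hz'.2.1⟩, hz⟩
        have h3 := (card_le_card h2).trans card_image_le
        omega
      · intro t ht
        rw [mem_filter] at ht
        have htY0 : t ∈ Y0 := hY1Y0 ht.1
        refine ⟨?_, ?_⟩
        · have h4 : nb T t (lv T) ⊆ nb T t (lv T \ P) := by
            intro u hu
            rw [mem_nb] at hu ⊢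
            refine ⟨?_, hu.2⟩
            rw [mem_sdiff]
            refine ⟨hu.1, ?_⟩
            intro huP
            rw [hmemP] at huP
            rcases huP with rfl | huP | huP | huP
            · exact hplv hu.1
            · exact hYYlv u (mem_union_left _ huP) hu.1
            · exact hYYlv u (mem_union_right _ (hY1Y0 huP)) hu.1
            · obtain ⟨i, hi, _⟩ := hΛP u huP t hu.2.symm
              exact hY0Y t htY0 (hi ▸ hyY i)
          exact (hYYd t (mem_union_right _ htY0)).trans (card_le_card h4)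
        · rw [hφ0 t htY0]
          have := ht.2
          rw [mem_cnb] at this
          exact this.2.2.symm

end Pool.Agent.TH451.MB
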