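import Mathlib

/-! Definitions for the Maker-Breaker spanning tree game (MP_9916e0_co). -/

namespace Pool.Agent.TH451.MB

open Finset

/-- Whose turn it is. -/
inductive Turn
  | maker
  | breaker

/-- `MakerWinsFrom board F t M B`: in the (1:1) Maker-Breaker game on the finite board `board` with
winning sets `F`, Maker can force a win from the position in which `M` is the set of elements claimed
by Maker, `B` the set of elements claimed by Breaker, and player `t` is to move. Maker has won as
soon as he owns all elements of some winning set. -/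
inductive MakerWinsFrom {X : Type} [DecidableEq X] (board : Finset X) (F : Set (Finset X)) :
    Turn → Finset X → Finset X → Prop
  | won {t : Turn} {M B : Finset X} (W : Finset X) (hW : W ∈ F) (h : W ⊆ M) :
      MakerWinsFrom board F t M B
  | breaker {M B : Finset X} (hfree : (board \ (M ∪ B)).Nonempty)
      (h : ∀ b ∈ board \ (M ∪ B), MakerWinsFrom board F Turn.maker M (insert b B)) :
      MakerWinsFrom board F Turn.breaker M B
  | maker {M B : Finset X} (m : X) (hm : m ∈ board \ (M ∪ B))
      (h : MakerWinsFrom board F Turn.breaker (insert m M) B) :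
      MakerWinsFrom board F Turn.maker M B

/-- The board `E(K_n)`: all non-loop pairs of vertices. -/
def board (n : ℕ) : Finset (Sym2 (Fin n)) := univ.filter (fun e => ¬ e.IsDiag)

/-- The edge sets of the copies of `T` in `K_n`. -/
def copies {n : ℕ} (T : SimpleGraph (Fin n)) : Set (Finset (Sym2 (Fin n))) :=
  {W | ∃ ψ : Fin n ≃ Fin n, ∀ e, e ∈ W ↔ ∃ a b, T.Adj a b ∧ e = s(ψ a, ψ b)}

/-- Maker wins the tree embedding game of `T` (Breaker moves first). -/
def MakerWins {n : ℕ} (T : SimpleGraph (Fin n)) : Prop :=
  MakerWinsFrom (board n) (copies T) Turn.breaker ∅ ∅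

section Graph
variable {V : Type}

/-- the neighbours of `v` in the set `R` -/
noncomputable def nb (G : SimpleGraph V) (v : V) (R : Finset V) : Finset V := by
  classical exact R.filter (fun z => G.Adj v z)

/-- the common neighbours of `x` and `y` in the set `R` -/
noncomputable def cnb (G : SimpleGraph V) (x y : V) (R : Finset V) : Finset V := by
  classical exact R.filter (fun z => G.Adj x z ∧ G.Adj y z)

/-- the neighbours of `x` in `R` that are adjacent to `y` or to `y'` -/
noncomputable def lnb (G : SimpleGraph V) (x y y' : V) (R : Finset V) : Finset V := by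
  classical exact R.filter (fun z => G.Adj x z ∧ (G.Adj y z ∨ G.Adj y' z))

/-- the vertices of `W` that are adjacent to some vertex of `X` -/
noncomputable def nbs (G : SimpleGraph V) (X : Finset V) (W : Finset V) : Finset V := by
  classical exact W.filter (fun w => ∃ x ∈ X, G.Adj x w)

lemma mem_nb {G : SimpleGraph V} {v : V} {R : Finset V} {z : V} :
    z ∈ nb G v R ↔ z ∈ R ∧ G.Adj v z := by
  classical simp [nb]

lemma mem_cnb {G : SimpleGraph V} {x y : V} {R : Finset V} {z : V} :
    z ∈ cnb G x y R ↔ z ∈ R ∧ G.Adj x z ∧ G.Adj y z := by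
  classical simp [cnb]

lemma mem_lnb {G : SimpleGraph V} {x y y' : V} {R : Finset V} {z : V} :
    z ∈ lnb G x y y' R ↔ z ∈ R ∧ G.Adj x z ∧ (G.Adj y z ∨ G.Adj y' z) := by
  classical simp [lnb]

lemma mem_nbs {G : SimpleGraph V} {X W : Finset V} {w : V} :
    w ∈ nbs G X W ↔ w ∈ W ∧ ∃ x ∈ X, G.Adj x w := by
  classical simp [nbs]

/-- `T` is contained in `G` as a spanning subgraph. -/
def Spans {τ : Type} (G : SimpleGraph V) (T : SimpleGraph τ) : Prop :=
  ∃ ψ : τ ≃ V, ∀ a b, T.Adj a b → G.Adj (ψ a) (ψ b)

/-- Two vertices that are neither adjacent nor have a common neighbour. -/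
def Far (T : SimpleGraph V) (x y : V) : Prop :=
  ¬ T.Adj x y ∧ ∀ z, ¬ (T.Adj x z ∧ T.Adj y z)

/-- Pseudorandomness used in all static parts. `H` = the hub positions (excluded), `s` ~ C log n. -/
structure Expands [Fintype V] (G : SimpleGraph V) (H : Finset V) (s : ℕ) : Prop where
  p2 : ∀ A B : Finset V, Disjoint A B → Disjoint A H → Disjoint B H →
    s ≤ A.card → s ≤ B.card → ∃ b ∈ B, A.card ≤ 40 * (nb G b A).card
  p3 : ∀ A U : Finset V, Disjoint A U → Disjoint A H → Disjoint U H →
    100 ≤ A.card → s ≤ U.card → Fintype.card V ≤ A.card ^ 2 * U.card →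
    ∃ a ∈ A, ∃ u ∈ U, G.Adj a u

end Graph

/-- A family of sets of edges such that each is hit by the graph `G`. -/
def Hits {V : Type} {ι : Type} (G : SimpleGraph V) (L : ι → Finset (Sym2 V)) : Prop :=
  ∀ i, ∃ e ∈ L i, e ∈ G.edgeSet

/-- size of the set reserved at a preplaced vertex with `k` outside neighbours, `p` = number of
preplaced vertices -/
def resv (K s p k : ℕ) : ℕ := K * (k + (p + 1) * s) + s

end Pool.Agent.TH451.MB
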