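import Pool.Agent.TH451.MB.Base

namespace Pool.Agent.TH451.MB
open Finset

lemma exists_family {n : ℕ} : ∀ (k : ℕ) (m : ℕ) (Av : Finset (Fin n)), k * m + Av.card ≤ n →
    ∃ S : Fin k → Finset (Fin n), (∀ i, (S i).card = m) ∧ (∀ i, Disjoint (S i) Av) ∧
      (∀ i j, i ≠ j → Disjoint (S i) (S j)) := by
  intro k
  induction k with
  | zero =>
    intro m Av _
    exact ⟨fun i => i.elim0, fun i => i.elim0, fun i => i.elim0, fun i => i.elim0⟩
  | succ k ih =>
    intro m Av h
    have h1 : (k + 1) * m = k * m + m := by ring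
    obtain ⟨S0, hS0, hS0d⟩ := exists_avoid Av m (by omega)
    obtain ⟨S, hS1, hS2, hS3⟩ := ih m (Av ∪ S0) (by
      have := card_union_le Av S0
      omega)
    refine ⟨Fin.cons S0 S, ?_, ?_, ?_⟩
    · intro i
      refine Fin.cases ?_ ?_ i
      · simpa using hS0
      · intro i; simpa using hS1 i
    · intro i
      refine Fin.cases ?_ ?_ i
      · simpa using hS0d
      · intro i
        have := hS2 i
        rw [disjoint_union_right] at this
        simpa using this.1
    · intro i j
      refine Fin.cases ?_ ?_ i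
      · refine Fin.cases ?_ ?_ j
        · intro h; exact absurd rfl h
        · intro j _
          have := hS2 j
          rw [disjoint_union_right] at this
          simpa using this.2.symm
      · intro i
        refine Fin.cases ?_ ?_ j
        · intro _
          have := hS2 i
          rw [disjoint_union_right] at this
          simpa using this.2
        · intro j hij
          simpa using hS3 i j (fun h => hij (by rw [h]))

lemma fin3_ne1 (i : Fin 3) : i ≠ i + 1 := by
  intro h; fin_cases i <;> simp [Fin.ext_iff] at h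
lemma fin3_ne2 (i : Fin 3) : i ≠ i + 2 := by
  intro h; fin_cases i <;> simp [Fin.ext_iff] at h
lemma fin3_ne3 (i : Fin 3) : i + 1 ≠ i + 2 := by
  intro h; fin_cases i <;> simp [Fin.ext_iff] at h

theorem hub_game (hG : StGame) : ∃ C n0 : ℕ, ∀ n ≥ n0, ∀ s : ℕ, C * (Nat.log 2 n + 1) ≤ s →
    1 ≤ s → 10 ^ 7 * s ≤ n →
    ∀ (T : SimpleGraph (Fin n)) (l : ℕ), n < 1000 * l → l ≤ n →
    ∀ (q : Fin 3 → Fin n) (_hq : Function.Injective q) (E0 : Finset (Fin n)), E0.card ≤ 1 →
    (∀ i, q i ∉ E0) →
    ∀ (M0 B0 : Finset (Sym2 (Fin n))), B0.card ≤ 3 → M0 ⊆ board n → B0 ⊆ board n →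
    Disjoint M0 B0 →
    ∀ Tch : Finset (Fin n), Tch.card ≤ 6 →
    (∀ x, x ∉ univ.image q → x ∉ E0 → x ∉ Tch → ∀ i, s(x, q i) ∉ M0 ∪ B0) →
    (∀ x, x ∉ univ.image q → x ∉ E0 →
      ∃ i j, i ≠ j ∧ s(x, q i) ∉ M0 ∪ B0 ∧ s(x, q j) ∉ M0 ∪ B0) →
    ∀ z : ℕ, s ≤ z → z ≤ n / 100 →
    (∀ (W0 Z : Finset (Fin n)), Disjoint W0 (univ.image q ∪ E0) →
      Disjoint Z (univ.image q ∪ E0) → Disjoint Z W0 → Z.card = z → 2 * W0.card ≤ l →
      ∀ G : SimpleGraph (Fin n), Expands G (univ.image q) s →
      (∀ v, l + 1000 ≤ 1000 * (nb G v W0).card) →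
      (∀ v, ∀ Q : Finset (Fin n), Q.card ≤ 200 * s →
        n ≤ 10 ^ 5 * (nb G v (univ \ (W0 ∪ Q))).card) →
      (∀ x y y', x ∉ univ.image q → y ∉ univ.image q → y' ∉ univ.image q →
        x ≠ y → x ≠ y' → y ≠ y' → Z.card ≤ 40 * (lnb G x y y' Z).card) →
      (∀ x, x ∉ univ.image q → x ∉ E0 → ∃ i, G.Adj x (q i)) →
      (∀ e ∈ M0, e ∈ G.edgeSet) → Spans G T) →
    MakerWinsFrom (board n) (copies T) Turn.breaker M0 B0 := by
  classical
  obtain ⟨C, n0, hG⟩ := hG
  refine ⟨C, max n0 100, ?_⟩
  intro n hn s hs hs1 hsn T l hl hln q hq E0 hE0 hqE M0 B0 hB0 hM0b hB0b hMB Tch hTch hfree htwo z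
    hz1 hz2 hfin
  have hn0 : n0 ≤ n := le_trans (le_max_left _ _) hn
  have hn100 : 100 ≤ n := le_trans (le_max_right _ _) hn
  set H : Finset (Fin n) := univ.image q with hH
  have hHcard : H.card = 3 := by
    rw [hH, card_image_of_injective _ hq]; simp
  set Av : Finset (Fin n) := H ∪ E0 ∪ Tch with hAv
  have hAvc : Av.card ≤ 10 := by
    have h1 := card_union_le (H ∪ E0) Tch
    have h2 := card_union_le H E0
    rw [hAv]
    omega
  obtain ⟨W, hW1, hW2, hW3⟩ := exists_family (n := n) 3 (l / 12) Av (by omega)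
  set W0 : Finset (Fin n) := univ.biUnion W with hW0
  have hW0c : W0.card = 3 * (l / 12) := by
    rw [hW0, card_biUnion]
    · simp [hW1]
    · intro i _ j _ hij
      exact hW3 i j hij
  obtain ⟨R, hR1, hR2, hR3⟩ := exists_family (n := n) 3 (n / 100) (Av ∪ W0) (by
    have := card_union_le Av W0
    omega)
  set Rst : Finset (Fin n) := univ.biUnion R with hRst
  have hRstc : Rst.card = 3 * (n / 100) := by
    rw [hRst, card_biUnion]
    · simp [hR1]
    · intro i _ j _ hij
      exact hR3 i j hij
  obtain ⟨Z, hZc, hZd⟩ := exists_avoid (n := n) (Av ∪ W0 ∪ Rst) z (by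
    have h1 := card_union_le (Av ∪ W0) Rst
    have h2 := card_union_le Av W0
    omega)
  -- membership facts
  have hWAv : ∀ i x, x ∈ W i → x ∉ Av := fun i x hx hx' => (disjoint_left.mp (hW2 i)) hx hx'
  have hRAv : ∀ i x, x ∈ R i → x ∉ Av := fun i x hx hx' =>
    (disjoint_left.mp (hR2 i)) hx (mem_union_left _ hx')
  have hRW : ∀ i j x, x ∈ R i → x ∉ W j := fun i j x hx hx' =>
    (disjoint_left.mp (hR2 i)) hx (mem_union_right _ (mem_biUnion.mpr ⟨j, mem_univ _, hx'⟩))
  have hAvH : ∀ x, x ∉ Av → x ∉ H ∧ x ∉ E0 ∧ x ∉ Tch := by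
    intro x hx
    simp only [hAv, mem_union, not_or] at hx
    exact ⟨hx.1.1, hx.1.2, hx.2⟩
  -- the class relation
  have hclass : ∀ i j x, x ∈ W i ∪ R i → x ∈ W j ∪ R j → i = j := by
    intro i j x hi hj
    by_contra hne
    rw [mem_union] at hi hj
    rcases hi with hi | hi <;> rcases hj with hj | hj
    · exact disjoint_left.mp (hW3 i j hne) hi hj
    · exact hRW j i x hj hi
    · exact hRW i j x hi hj
    · exact disjoint_left.mp (hR3 i j hne) hi hj
  -- the pairing
  have hpr : ∃ pr : Fin n → Option (Fin n × Fin n),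
      (∀ x, x ∈ H ∪ E0 → pr x = none) ∧
      (∀ x, x ∉ H ∪ E0 → ∃ i j, i ≠ j ∧ pr x = some (q i, q j) ∧
        s(x, q i) ∉ M0 ∪ B0 ∧ s(x, q j) ∉ M0 ∪ B0 ∧
        ∀ k, x ∈ W k ∪ R k → k ≠ i ∧ k ≠ j) := by
    have hex : ∀ x, ∃ p : Option (Fin n × Fin n), (x ∈ H ∪ E0 → p = none) ∧
        (x ∉ H ∪ E0 → ∃ i j, i ≠ j ∧ p = some (q i, q j) ∧
        s(x, q i) ∉ M0 ∪ B0 ∧ s(x, q j) ∉ M0 ∪ B0 ∧
        ∀ k, x ∈ W k ∪ R k → k ≠ i ∧ k ≠ j) := by
      intro x
      by_cases hx : x ∈ H ∪ E0
      · exact ⟨none, fun _ => rfl, fun h => absurd hx h⟩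
      · by_cases hk : ∃ k, x ∈ W k ∪ R k
        · obtain ⟨k, hk⟩ := hk
          have hxAv : x ∉ Av := by
            rw [mem_union] at hk
            rcases hk with hk | hk
            · exact hWAv k x hk
            · exact hRAv k x hk
          obtain ⟨h1, h2, h3⟩ := hAvH x hxAv
          refine ⟨some (q (k+1), q (k+2)), fun h => absurd h hx, fun _ =>
            ⟨k+1, k+2, fin3_ne3 k, rfl, hfree x h1 h2 h3 _, hfree x h1 h2 h3 _, ?_⟩⟩
          intro k' hk'
          rw [hclass k' k x hk' hk]
          exact ⟨fin3_ne1 k, fin3_ne2 k⟩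
        · rw [mem_union, not_or] at hx
          obtain ⟨i, j, hij, h1, h2⟩ := htwo x hx.1 hx.2
          refine ⟨some (q i, q j), fun h => ?_, fun _ => ⟨i, j, hij, rfl, h1, h2, ?_⟩⟩
          · rw [mem_union] at h
            rcases h with h | h
            · exact absurd h hx.1
            · exact absurd h hx.2
          · intro k hk'
            exact absurd ⟨k, hk'⟩ hk
    choose pr hpr1 hpr2 using hex
    exact ⟨pr, hpr1, hpr2⟩
  obtain ⟨pr, hpr1, hpr2⟩ := hpr
  have hprsome : ∀ x a b, pr x = some (a, b) → ∃ i j, i ≠ j ∧ a = q i ∧ b = q j ∧ x ∉ H ∪ E0 ∧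
        s(x, a) ∉ M0 ∪ B0 ∧ s(x, b) ∉ M0 ∪ B0 ∧
        ∀ k, x ∈ W k ∪ R k → k ≠ i ∧ k ≠ j := by
    intro x a b hx
    by_cases hxH : x ∈ H ∪ E0
    · rw [hpr1 x hxH] at hx; exact absurd hx (by simp)
    · obtain ⟨i, j, hij, h1, h2, h3, h4⟩ := hpr2 x hxH
      rw [h1] at hx
      simp only [Option.some.injEq, Prod.mk.injEq] at hx
      obtain ⟨rfl, rfl⟩ := hx
      exact ⟨i, j, hij, rfl, rfl, hxH, h2, h3, h4⟩
  -- the degree list
  set D : Finset (Fin n × Finset (Fin n)) :=
    (univ \ H).image (fun v => (v, W0.erase v)) ∪ (univ \ H).image (fun v => (v, Rst.erase v)) ∪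
    univ.image (fun i : Fin 3 => (q i, W i)) ∪ univ.image (fun i : Fin 3 => (q i, R i)) with hD
  have hDcard : D.card ≤ n ^ 2 := by
    have a1 := card_union_le ((univ \ H).image (fun v => (v, W0.erase v)) ∪
      (univ \ H).image (fun v => (v, Rst.erase v)) ∪
      univ.image (fun i : Fin 3 => (q i, W i))) (univ.image (fun i : Fin 3 => (q i, R i)))
    have a2 := card_union_le ((univ \ H).image (fun v => (v, W0.erase v)) ∪
      (univ \ H).image (fun v => (v, Rst.erase v))) (univ.image (fun i : Fin 3 => (q i, W i)))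
    have a3 := card_union_le ((univ \ H).image (fun v => (v, W0.erase v)))
      ((univ \ H).image (fun v => (v, Rst.erase v)))
    have a4 : ((univ \ H).image (fun v => (v, W0.erase v))).card ≤ n :=
      card_image_le.trans ((card_le_univ _).trans (by simp))
    have a5 : ((univ \ H).image (fun v => (v, Rst.erase v))).card ≤ n :=
      card_image_le.trans ((card_le_univ _).trans (by simp))
    have a6 : (univ.image (fun i : Fin 3 => (q i, W i))).card ≤ 3 :=
      card_image_le.trans (by simp)
    have a7 : (univ.image (fun i : Fin 3 => (q i, R i))).card ≤ 3 :=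
      card_image_le.trans (by simp)
    have a8 : D.card ≤ 2 * n + 6 := by rw [hD]; omega
    nlinarith
  have hW0H : Disjoint W0 H := by
    rw [hW0, disjoint_biUnion_left]
    intro i _
    rw [disjoint_left]
    intro x hx hx'
    exact (hAvH x (hWAv i x hx)).1 hx'
  have hRstH : Disjoint Rst H := by
    rw [hRst, disjoint_biUnion_left]
    intro i _
    rw [disjoint_left]
    intro x hx hx'
    exact (hAvH x (hRAv i x hx)).1 hx'
  have hRstW0 : Disjoint Rst W0 := by
    rw [hRst, disjoint_biUnion_left]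
    intro i _
    have := hR2 i
    rw [disjoint_union_right] at this
    exact this.2
  have hZall : Disjoint Z H ∧ Disjoint Z E0 ∧ Disjoint Z W0 := by
    rw [disjoint_union_right, disjoint_union_right, hAv, disjoint_union_right,
      disjoint_union_right] at hZd
    exact ⟨hZd.1.1.1.1, hZd.1.1.1.2, hZd.1.2⟩
  have hlbig : 12 * (s + 1) ≤ l := by omega
  refine hG n hn0 s hs T H pr D {Z} M0 B0 hB0 hM0b hB0b hMB ?_ hDcard ?_ ?_ ?_ ?_
  · intro x a b hx
    obtain ⟨i, j, hij, rfl, rfl, hxH, h2, h3, _⟩ := hprsome x a b hx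
    rw [mem_union, not_or] at hxH
    exact ⟨hxH.1, mem_image_of_mem _ (mem_univ _), mem_image_of_mem _ (mem_univ _),
      fun h => hij (hq h), h2, h3⟩
  · intro d hd
    rw [hD, mem_union, mem_union, mem_union, mem_image, mem_image, mem_image, mem_image] at hd
    rcases hd with ((⟨v, hv, rfl⟩ | ⟨v, hv, rfl⟩) | ⟨i, _, rfl⟩) | ⟨i, _, rfl⟩
    · refine ⟨?_, by simp, (disjoint_of_subset_left (erase_subset _ _) hW0H), ?_⟩
      · have := pred_card_le_card_erase (s := W0) (a := v)
        show s ≤ (W0.erase v).card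
        omega
      · intro r _ a b hab
        obtain ⟨i, j, hij, rfl, rfl, _⟩ := hprsome r a b hab
        have hvH : v ∉ H := by simpa using hv
        constructor
        · rintro rfl; exact hvH (mem_image_of_mem _ (mem_univ _))
        · rintro rfl; exact hvH (mem_image_of_mem _ (mem_univ _))
    · refine ⟨?_, by simp, (disjoint_of_subset_left (erase_subset _ _) hRstH), ?_⟩
      · have := pred_card_le_card_erase (s := Rst) (a := v)
        show s ≤ (Rst.erase v).card
        omega
      · intro r _ a b hab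
        obtain ⟨i, j, hij, rfl, rfl, _⟩ := hprsome r a b hab
        have hvH : v ∉ H := by simpa using hv
        constructor
        · rintro rfl; exact hvH (mem_image_of_mem _ (mem_univ _))
        · rintro rfl; exact hvH (mem_image_of_mem _ (mem_univ _))
    · refine ⟨?_, ?_, ?_, ?_⟩
      · show s ≤ (W i).card
        rw [hW1]; omega
      · intro h
        exact (hAvH _ (hWAv i _ h)).1 (mem_image_of_mem _ (mem_univ _))
      · rw [disjoint_left]
        intro x hx hx'
        exact (hAvH x (hWAv i x hx)).1 hx'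
      · intro r hr a b hab
        obtain ⟨i', j', hij, rfl, rfl, _, _, _, hk⟩ := hprsome r a b hab
        have := hk i (mem_union_left _ hr)
        exact ⟨fun h => this.1 (hq h), fun h => this.2 (hq h)⟩
    · refine ⟨?_, ?_, ?_, ?_⟩
      · show s ≤ (R i).card
        rw [hR1]; omega
      · intro h
        exact (hAvH _ (hRAv i _ h)).1 (mem_image_of_mem _ (mem_univ _))
      · rw [disjoint_left]
        intro x hx hx'
        exact (hAvH x (hRAv i x hx)).1 hx'
      · intro r hr a b hab
        obtain ⟨i', j', hij, rfl, rfl, _, _, _, hk⟩ := hprsome r a b hab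
        have := hk i (mem_union_right _ hr)
        exact ⟨fun h => this.1 (hq h), fun h => this.2 (hq h)⟩
  · simp; omega
  · intro R' hR'
    rw [mem_singleton] at hR'
    subst hR'
    exact ⟨by omega, hZall.1⟩
  · intro G hGE hGD hG4 hGp hGM
    have hcase : ∀ v, v ∈ H ∨ v ∉ H := fun v => em _
    refine hfin W0 Z ?_ ?_ hZall.2.2 hZc (by omega) G hGE ?_ ?_ ?_ ?_ hGM
    · rw [disjoint_union_right]
      refine ⟨hW0H, ?_⟩
      rw [hW0, disjoint_biUnion_left]
      intro i _
      rw [disjoint_left]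
      intro x hx hx'
      exact (hAvH x (hWAv i x hx)).2.1 hx'
    · rw [disjoint_union_right]
      exact ⟨hZall.1, hZall.2.1⟩
    · intro v
      rcases hcase v with hv | hv
      · rw [hH, mem_image] at hv
        obtain ⟨i, _, rfl⟩ := hv
        have h1 := hGD (q i, W i) (by
          rw [hD]
          exact mem_union_left _ (mem_union_right _ (mem_image.mpr ⟨i, mem_univ _, rfl⟩)))
        have h2 : (nb G (q i) (W i)).card ≤ (nb G (q i) W0).card :=
          card_le_card (nb_mono (subset_biUnion_of_mem W (mem_univ i)))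
        simp only at h1
        rw [hW1] at h1
        omega
      · have h1 := hGD (v, W0.erase v) (by
          rw [hD, mem_union, mem_union, mem_union]
          left; left; left
          rw [mem_image]
          exact ⟨v, by simpa using hv, rfl⟩)
        simp only at h1
        rw [nb_erase_self] at h1
        have := pred_card_le_card_erase (s := W0) (a := v)
        omega
    · intro v Q hQ
      have hsub : nb G v Rst \ Q ⊆ nb G v (univ \ (W0 ∪ Q)) := by
        intro x hx
        rw [mem_sdiff, mem_nb] at hx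
        rw [mem_nb, mem_sdiff, mem_union, not_or]
        exact ⟨⟨mem_univ _, disjoint_left.mp hRstW0 hx.1.1, hx.2⟩, hx.1.2⟩
      have h3 := card_le_card hsub
      have h4 := le_card_sdiff Q (nb G v Rst)
      have h5 : n ≤ 4000 * (nb G v Rst).card + 8000 := by
        rcases hcase v with hv | hv
        · rw [hH, mem_image] at hv
          obtain ⟨i, _, rfl⟩ := hv
          have h1 := hGD (q i, R i) (by
            rw [hD]
            exact mem_union_right _ (mem_image.mpr ⟨i, mem_univ _, rfl⟩))
          have h2 : (nb G (q i) (R i)).card ≤ (nb G (q i) Rst).card :=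
            card_le_card (nb_mono (subset_biUnion_of_mem R (mem_univ i)))
          simp only at h1
          rw [hR1] at h1
          omega
        · have h1 := hGD (v, Rst.erase v) (by
            rw [hD, mem_union, mem_union, mem_union]
            left; left; right
            rw [mem_image]
            exact ⟨v, by simpa using hv, rfl⟩)
          simp only at h1
          rw [nb_erase_self] at h1
          have := pred_card_le_card_erase (s := Rst) (a := v)
          omega
      omega
    · intro x y y' hx hy hy' h1 h2 h3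
      exact hG4 Z (by simp) x y y' hx hy hy' h1 h2 h3
    · intro x hx hxE
      obtain ⟨i, j, hij, h1, _⟩ := hpr2 x (by rw [mem_union, not_or]; exact ⟨hx, hxE⟩)
      rcases hGp x _ _ h1 with h | h
      · exact ⟨i, h⟩
      · exact ⟨j, h⟩

end Pool.Agent.TH451.MB
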