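import Pool.Agent.TH451.MB.CaseSmall
import Pool.Agent.TH451.MB.CaseStar

namespace Pool.Agent.TH451.MB
open Finset

theorem maker_wins_all (hG : StGame) (hPF : StPhaseFree) (hPS : StPhaseStar) (hFS : StFarStar)
    (hL1 : StLeafy1) (hL2 : StLeafy2) (hP : StPathStatic) (hSum : StSumNb)
    (hLS : StLeafStructure) (hSC : StStarClosed) :
    ∃ n0 : ℕ, ∀ n ≥ n0, ∀ T : SimpleGraph (Fin n), T.IsTree →
      (∀ t, 10 ^ 10 * (nb T t univ).card ≤ n) → MakerWins T := by
  classical
  obtain ⟨C1, n1, h1⟩ := case_path hG hP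
  obtain ⟨C2, n2, h2⟩ := case_big_far hG hPF hL1
  obtain ⟨C3, n3, h3⟩ := case_big_star hG hPS hL1 hSC
  obtain ⟨C4, n4, h4⟩ := case_small_far hG hL2
  obtain ⟨C5, n5, h5⟩ := case_small_star hG hPS hL2 hSC hLS
  set C : ℕ := C1 + C2 + C3 + C4 + C5 + 1 with hC
  obtain ⟨m1, hm1⟩ := log_pow_le C 1 20
  obtain ⟨m2, hm2⟩ := log_pow_le C (10 ^ 15) 4
  refine ⟨n1 + n2 + n3 + n4 + n5 + m1 + m2 + 100, ?_⟩
  intro n hn T hT hdeg
  set s : ℕ := C * (Nat.log 2 n + 1) with hs
  have hs1 : 1 ≤ s := by
    rw [hs]
    have : 1 ≤ C := by omega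
    exact Nat.mul_pos this (by omega)
  have hsC : ∀ C' ≤ C, C' * (Nat.log 2 n + 1) ≤ s := fun C' h => Nat.mul_le_mul_right _ h
  have hs20 : s ^ 20 ≤ n := by
    have := hm1 n (by omega)
    rw [← hs, one_mul] at this
    exact this
  have hs4 : 10 ^ 15 * s ^ 4 ≤ n := hm2 n (by omega)
  have hpow : ∀ a b : ℕ, a ≤ b → s ^ a ≤ s ^ b := fun a b h => Nat.pow_le_pow_right hs1 h
  have hs5 : s ^ 5 ≤ n := (hpow 5 20 (by norm_num)).trans hs20
  have hs3 : 10 ^ 15 * s ^ 3 ≤ n :=
    (Nat.mul_le_mul_left _ (hpow 3 4 (by norm_num))).trans hs4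
  have hs7 : 10 ^ 7 * s ≤ n := by
    have h := Nat.mul_le_mul_left (10 ^ 15) (hpow 1 4 (by norm_num))
    rw [pow_one] at h
    omega
  by_cases hlv : 1000 * (lv T).card ≤ n
  · exact h1 n (by omega) s (hsC _ (by omega)) hs1 hs5 hs7 T hT hlv
      (fun t => by have := hdeg t; omega)
  push Not at hlv
  -- leaf parents are not leaves
  have hnotleaf : ∀ t, 1 ≤ (nb T t (lv T)).card → t ∉ lv T := by
    intro t ht htl
    obtain ⟨u, hu⟩ := card_pos.mp ht
    rw [mem_nb] at hu
    rw [lv, mem_filter] at htl
    obtain ⟨a, ha, hab⟩ := (hLS T hT (by omega) t).2 htl.2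
    have := (hab u).mp hu.2
    subst this
    have h := hu.1
    rw [lv, mem_filter] at h
    omega
  have hDdeg : ∀ t, (nb T t (lv T)).card ≤ (nb T t univ).card :=
    fun t => card_le_card (nb_mono (subset_univ _))
  have hstarleaf : ∀ p (S : Finset (Fin n)), 2 ≤ (nb T p S).card → p ∉ lv T := by
    intro p S h hp
    rw [lv, mem_filter] at hp
    have := card_le_card (nb_mono (G := T) (v := p) (subset_univ S))
    omega
  -- threshold
  have hex : ∃ d, (univ.filter (fun t => d < (nb T t (lv T)).card)).card ≤ 39 := by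
    refine ⟨n, ?_⟩
    have : univ.filter (fun t => n < (nb T t (lv T)).card) = ∅ := by
      apply filter_false_of_mem
      intro t _
      have h := (hDdeg t).trans (card_le_univ _)
      rw [Fintype.card_fin] at h
      omega
    rw [this]; simp
  set d : ℕ := Nat.find hex with hd
  have hfew : (univ.filter (fun t => d < (nb T t (lv T)).card)).card ≤ 39 := Nat.find_spec hex
  by_cases hsd : s ≤ d
  · -- large demands
    have hmin : 40 ≤ (univ.filter (fun t => d ≤ (nb T t (lv T)).card)).card := by
      have h := Nat.find_min hex (m := d - 1) (by omega)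
      push Not at h
      have heq : univ.filter (fun t => d - 1 < (nb T t (lv T)).card) =
          univ.filter (fun t => d ≤ (nb T t (lv T)).card) := by
        apply filter_congr
        intro t _
        omega
      rw [heq] at h
      omega
    set S : Finset (Fin n) := univ.filter (fun t => d ≤ (nb T t (lv T)).card) with hS
    have hSd : ∀ t ∈ S, d ≤ (nb T t (lv T)).card := fun t ht => (mem_filter.mp ht).2
    rcases hFS (Fin n) T hT.2 S 3 3 (by omega) with ⟨Y, hYS, hYc, hYfar⟩ | ⟨p, hp⟩
    · exact h2 n (by omega) s (hsC _ (by omega)) hs1 hs5 hs7 T hT hlv hdeg d hsd hfew Y hYc hYfar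
        (fun t ht => hnotleaf t (by have := hSd t (hYS ht); omega)) (fun t ht => hSd t (hYS ht))
    · obtain ⟨Y, hYS, hYc⟩ := exists_subset_card_eq hp
      have hY : ∀ t ∈ Y, t ∈ S ∧ T.Adj p t := fun t ht => mem_nb.mp (hYS ht)
      exact h3 n (by omega) s (hsC _ (by omega)) hs1 hs5 hs7 T hT hlv hdeg d hsd hfew p Y hYc
        (fun t ht => (hY t ht).2)
        (fun t ht => hnotleaf t (by have := hSd t (hY t ht).1; omega))
        (hstarleaf p S (by omega)) (fun t ht => hSd t (hY t ht).1)
  · -- small demands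
    push Not at hsd
    set S : Finset (Fin n) := univ.filter (fun t => 1 ≤ (nb T t (lv T)).card ∧
      (nb T t univ).card ≤ 10000 * s) with hS
    set Q : Finset (Fin n) := univ.filter (fun t => 1 ≤ (nb T t (lv T)).card) with hQ
    have hlvsum : (lv T).card ≤ ∑ t ∈ Q, (nb T t (lv T)).card := by
      have hsub : lv T ⊆ Q.biUnion (fun t => nb T t (lv T)) := by
        intro u hu
        have hu' := hu
        rw [lv, mem_filter] at hu'
        obtain ⟨a, ha, hab⟩ := (hLS T hT (by omega) u).2 hu'.2
        have hua : T.Adj u a := (hab a).mpr rfl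
        rw [mem_biUnion]
        refine ⟨a, ?_, mem_nb.mpr ⟨hu, hua.symm⟩⟩
        rw [hQ, mem_filter]
        exact ⟨mem_univ _, card_pos.mpr ⟨u, mem_nb.mpr ⟨hu, hua.symm⟩⟩⟩
      exact (card_le_card hsub).trans card_biUnion_le
    have hsplit : ∑ t ∈ Q, (nb T t (lv T)).card ≤ 39 * (n / 10 ^ 10) + Q.card * s := by
      rw [← sum_filter_add_sum_filter_not Q (fun t => d < (nb T t (lv T)).card)]
      apply Nat.add_le_add
      · calc ∑ t ∈ Q.filter (fun t => d < (nb T t (lv T)).card), (nb T t (lv T)).card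
            ≤ ∑ t ∈ Q.filter (fun t => d < (nb T t (lv T)).card), n / 10 ^ 10 := by
              apply sum_le_sum
              intro t _
              have h := hDdeg t
              have h' := hdeg t
              omega
          _ = (Q.filter (fun t => d < (nb T t (lv T)).card)).card * (n / 10 ^ 10) := by
              rw [sum_const, smul_eq_mul]
          _ ≤ 39 * (n / 10 ^ 10) := by
              apply Nat.mul_le_mul_right
              exact (card_le_card (filter_subset_filter _ (subset_univ _))).trans hfew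
      · calc ∑ t ∈ Q.filter (fun t => ¬ d < (nb T t (lv T)).card), (nb T t (lv T)).card
            ≤ ∑ t ∈ Q.filter (fun t => ¬ d < (nb T t (lv T)).card), s := by
              apply sum_le_sum
              intro t ht
              have := (mem_filter.mp ht).2
              omega
          _ = (Q.filter (fun t => ¬ d < (nb T t (lv T)).card)).card * s := by
              rw [sum_const, smul_eq_mul]
          _ ≤ Q.card * s := Nat.mul_le_mul_right _ (card_le_card (filter_subset _ _))
    set Hd : Finset (Fin n) := univ.filter (fun t => 10000 * s < (nb T t univ).card) with hHd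
    have hHdc : Hd.card * (10000 * s) ≤ 2 * n := by
      have h := hSum T hT
      have h' : ∑ t ∈ Hd, 10000 * s ≤ ∑ t ∈ Hd, (nb T t univ).card := by
        apply sum_le_sum
        intro t ht
        exact (mem_filter.mp ht).2.le
      have h'' : ∑ t ∈ Hd, (nb T t univ).card ≤ ∑ t, (nb T t univ).card :=
        sum_le_sum_of_subset (subset_univ _)
      rw [sum_const, smul_eq_mul] at h'
      omega
    have hQle : Q.card ≤ S.card + Hd.card := by
      have hsub : Q ⊆ S ∪ Hd := by
        intro t ht
        rw [hQ, mem_filter] at ht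
        rw [mem_union, hS, hHd, mem_filter, mem_filter]
        by_cases hh : (nb T t univ).card ≤ 10000 * s
        · left; exact ⟨mem_univ _, ht.2, hh⟩
        · right; exact ⟨mem_univ _, by omega⟩
      exact (card_le_card hsub).trans (card_union_le _ _)
    have hSbig : n ≤ 1500 * (S.card * s) := by
      have e1 : Q.card * s ≤ S.card * s + Hd.card * s := by
        rw [← add_mul]; exact Nat.mul_le_mul_right _ hQle
      have e2 : Hd.card * (10000 * s) = 10000 * (Hd.card * s) := by ring
      omega
    have hlarge : (40 * s) * ((40 * s) * (80 * s + 3) + (80 * s + 3) + 1) < S.card := by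
      by_contra hcon
      push Not at hcon
      have e0 : s ≤ s ^ 2 := by
        have := hpow 1 2 (by norm_num); simpa using this
      have e1 : (40 * s) * ((40 * s) * (80 * s + 3) + (80 * s + 3) + 1) ≤ 140000 * s ^ 3 := by
        have e3 : s ≤ s ^ 3 := by have := hpow 1 3 (by norm_num); simpa using this
        have e4 : s ^ 2 ≤ s ^ 3 := hpow 2 3 (by norm_num)
        have e5 : (40 * s) * ((40 * s) * (80 * s + 3) + (80 * s + 3) + 1) =
          128000 * s ^ 3 + 8000 * s ^ 2 + 160 * s := by ring
        omega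
      have e2 : S.card * s ≤ 140000 * s ^ 3 * s := Nat.mul_le_mul_right _ (hcon.trans e1)
      have e3 : 140000 * s ^ 3 * s = 140000 * s ^ 4 := by ring
      have e4 : 1 ≤ s ^ 4 := Nat.one_le_pow _ _ hs1
      omega
    have hSp : ∀ t ∈ S, 1 ≤ (nb T t (lv T)).card ∧ (nb T t univ).card ≤ 10000 * s :=
      fun t ht => (mem_filter.mp ht).2
    rcases hFS (Fin n) T hT.2 S (40 * s) (80 * s + 3) hlarge with ⟨Y, hYS, hYc, hYfar⟩ | ⟨p, hp⟩
    · exact h4 n (by omega) s (hsC _ (by omega)) hs1 hs20 hs3 T hT hlv hdeg d hsd.le hfew Y hYc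
        hYfar (fun t ht => hnotleaf t (hSp t (hYS ht)).1) (fun t ht => (hSp t (hYS ht)).1)
        (fun t ht => (hSp t (hYS ht)).2)
    · obtain ⟨Y, hYS, hYc⟩ := exists_subset_card_eq (s := nb T p S) (n := 3) (by omega)
      obtain ⟨Y0, hY0S, hY0c⟩ := exists_subset_card_eq (s := nb T p S \ Y) (n := 80 * s) (by
        rw [card_sdiff_of_subset hYS]; omega)
      have hU : ∀ t ∈ Y ∪ Y0, t ∈ S ∧ T.Adj p t := by
        intro t ht
        rw [mem_union] at ht
        rcases ht with ht | ht
        · exact mem_nb.mp (hYS ht)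
        · exact mem_nb.mp (mem_sdiff.mp (hY0S ht)).1
      have hdis : Disjoint Y Y0 := by
        rw [disjoint_left]
        intro t ht ht'
        exact (mem_sdiff.mp (hY0S ht')).2 ht
      exact h5 n (by omega) s (hsC _ (by omega)) hs1 hs20 hs3 T hT hlv hdeg d hsd.le hfew p Y Y0
        hYc hY0c hdis (hstarleaf p S (by omega)) (fun t ht => (hU t ht).2)
        (fun t ht => hnotleaf t (hSp t (hU t ht).1).1) (fun t ht => (hSp t (hU t ht).1).1)
        (fun t ht => (hSp t (hU t ht).1).2)

end Pool.Agent.TH451.MB
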