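import Pool.Agent.TH451.MB.Defs

/-! The statements (as `Prop`s) of the lemmas of the proof that `d(n) = Θ(n)` in the Maker-Breaker
spanning tree game. -/

namespace Pool.Agent.TH451.MB
open Finset

/-- Erdős–Selfridge with pairs -/
def StES : Prop := ∀ (X : Type) [DecidableEq X] (ι : Type) [Fintype ι]
    (board : Finset X) (F : Set (Finset X)) (M B : Finset X)
    (_hM : M ⊆ board) (_hB : B ⊆ board) (_hMB : Disjoint M B)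
    (mate : X → Option X)
    (_hmate : ∀ x y, mate x = some y → mate y = some x ∧ x ≠ y ∧ x ∈ board \ (M ∪ B))
    (L : ι → Finset X) (_hL : ∀ i, L i ⊆ board) (_hLm : ∀ i, ∀ x ∈ L i, mate x = none)
    (_hsum : (∑ i, (1/2 : ℝ) ^ (L i).card) * 2 ^ B.card < 1/2)
    (_hwin : ∀ M' : Finset X, M ⊆ M' → M' ⊆ board → Disjoint M' B →
      (∀ x y, mate x = some y → x ∈ M' ∨ y ∈ M') → (∀ i, ∃ x ∈ L i, x ∈ M') →
      ∃ W ∈ F, W ⊆ M'),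
    MakerWinsFrom board F Turn.breaker M B

def StFam1 : Prop := ∃ C n0 : ℕ, ∀ n ≥ n0, ∀ s : ℕ, C * (Nat.log 2 n + 1) ≤ s →
    ∀ D : Finset (Fin n × Finset (Fin n)), D.card ≤ n ^ 2 →
    (∀ d ∈ D, s ≤ d.2.card ∧ d.1 ∉ d.2) →
    ∃ (ι : Type) (_ : Fintype ι) (L : ι → Finset (Sym2 (Fin n))),
      (∀ i, ∀ e ∈ L i, ∃ d ∈ D, ∃ r ∈ d.2, e = s(d.1, r)) ∧
      ∑ i, (1/2 : ℝ) ^ (L i).card ≤ 1/100 ∧
      ∀ G : SimpleGraph (Fin n), Hits G L → ∀ d ∈ D, d.2.card ≤ 40 * (nb G d.1 d.2).card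

def StFam2 : Prop := ∃ C n0 : ℕ, ∀ n ≥ n0, ∀ s : ℕ, C * (Nat.log 2 n + 1) ≤ s →
    ∀ H : Finset (Fin n),
    ∃ (ι : Type) (_ : Fintype ι) (L : ι → Finset (Sym2 (Fin n))),
      (∀ i, ∀ e ∈ L i, ∃ a b, a ≠ b ∧ a ∉ H ∧ b ∉ H ∧ e = s(a, b)) ∧
      ∑ i, (1/2 : ℝ) ^ (L i).card ≤ 1/100 ∧
      ∀ G : SimpleGraph (Fin n), Hits G L →
        ∀ A B : Finset (Fin n), Disjoint A B → Disjoint A H → Disjoint B H →
          s ≤ A.card → s ≤ B.card → ∃ b ∈ B, A.card ≤ 40 * (nb G b A).card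

def StFam3 : Prop := ∃ C n0 : ℕ, ∀ n ≥ n0, ∀ s : ℕ, C * (Nat.log 2 n + 1) ≤ s →
    ∀ H : Finset (Fin n),
    ∃ (ι : Type) (_ : Fintype ι) (L : ι → Finset (Sym2 (Fin n))),
      (∀ i, ∀ e ∈ L i, ∃ a b, a ≠ b ∧ a ∉ H ∧ b ∉ H ∧ e = s(a, b)) ∧
      ∑ i, (1/2 : ℝ) ^ (L i).card ≤ 1/100 ∧
      ∀ G : SimpleGraph (Fin n), Hits G L →
        ∀ A U : Finset (Fin n), Disjoint A U → Disjoint A H → Disjoint U H →
          100 ≤ A.card → s ≤ U.card → n ≤ A.card ^ 2 * U.card →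
          ∃ a ∈ A, ∃ u ∈ U, G.Adj a u

def StFam4 : Prop := ∃ C n0 : ℕ, ∀ n ≥ n0, ∀ s : ℕ, C * (Nat.log 2 n + 1) ≤ s →
    ∀ (H : Finset (Fin n)) (Rs : Finset (Finset (Fin n))), Rs.card ≤ n →
    (∀ R ∈ Rs, s ≤ R.card ∧ Disjoint R H) →
    ∃ (ι : Type) (_ : Fintype ι) (L : ι → Finset (Sym2 (Fin n))),
      (∀ i, ∀ e ∈ L i, ∃ a b, a ≠ b ∧ a ∉ H ∧ b ∉ H ∧ e = s(a, b)) ∧
      ∑ i, (1/2 : ℝ) ^ (L i).card ≤ 1/100 ∧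
      ∀ G : SimpleGraph (Fin n), Hits G L →
        ∀ R ∈ Rs, ∀ x y y', x ∉ H → y ∉ H → y' ∉ H → x ≠ y → x ≠ y' → y ≠ y' →
          R.card ≤ 40 * (lnb G x y y' R).card

/-- the strategy lemma -/
def StGame : Prop := ∃ C n0 : ℕ, ∀ n ≥ n0, ∀ s : ℕ, C * (Nat.log 2 n + 1) ≤ s →
    ∀ (T : SimpleGraph (Fin n)) (H : Finset (Fin n)) (pr : Fin n → Option (Fin n × Fin n))
      (D : Finset (Fin n × Finset (Fin n))) (Rs : Finset (Finset (Fin n)))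
      (M0 B0 : Finset (Sym2 (Fin n))),
    B0.card ≤ 3 → M0 ⊆ board n → B0 ⊆ board n → Disjoint M0 B0 →
    (∀ x q q', pr x = some (q, q') → x ∉ H ∧ q ∈ H ∧ q' ∈ H ∧ q ≠ q' ∧
      s(x, q) ∉ M0 ∪ B0 ∧ s(x, q') ∉ M0 ∪ B0) →
    D.card ≤ n ^ 2 →
    (∀ d ∈ D, s ≤ d.2.card ∧ d.1 ∉ d.2 ∧ Disjoint d.2 H ∧
      ∀ r ∈ d.2, ∀ q q', pr r = some (q, q') → d.1 ≠ q ∧ d.1 ≠ q') →
    Rs.card ≤ n →
    (∀ R ∈ Rs, s ≤ R.card ∧ Disjoint R H) →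
    (∀ G : SimpleGraph (Fin n), Expands G H s →
      (∀ d ∈ D, d.2.card ≤ 40 * (nb G d.1 d.2).card) →
      (∀ R ∈ Rs, ∀ x y y', x ∉ H → y ∉ H → y' ∉ H → x ≠ y → x ≠ y' → y ≠ y' →
          R.card ≤ 40 * (lnb G x y y' R).card) →
      (∀ x q q', pr x = some (q, q') → G.Adj x q ∨ G.Adj x q') →
      (∀ e ∈ M0, e ∈ G.edgeSet) → Spans G T) →
    MakerWinsFrom (board n) (copies T) Turn.breaker M0 B0

def StPhaseFree : Prop := ∀ {n : ℕ} (_ : 10 ≤ n) (T : SimpleGraph (Fin n))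
    (_ : ∀ e b, e ∈ board n → b ∈ board n → e ≠ b →
      MakerWinsFrom (board n) (copies T) Turn.breaker {e} {b}), MakerWins T

def StPhaseStar : Prop := ∀ {n : ℕ} (_ : 20 ≤ n) (T : SimpleGraph (Fin n))
    (_ : ∀ v0 q1 q2 q3 : Fin n, [v0, q1, q2, q3].Nodup → ∀ B0 : Finset (Sym2 (Fin n)),
      B0 ⊆ board n → B0.card ≤ 3 →
      Disjoint {s(v0, q1), s(v0, q2), s(v0, q3)} B0 →
      (∀ x, x ∉ ({v0, q1, q2, q3} : Finset (Fin n)) →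
        (s(x, q1) ∉ B0 ∧ s(x, q2) ∉ B0) ∨ (s(x, q1) ∉ B0 ∧ s(x, q3) ∉ B0) ∨
        (s(x, q2) ∉ B0 ∧ s(x, q3) ∉ B0)) →
      MakerWinsFrom (board n) (copies T) Turn.breaker {s(v0, q1), s(v0, q2), s(v0, q3)} B0),
    MakerWins T

def StStarNot : Prop := ∀ {n : ℕ} (_ : 4 ≤ n), ∃ T : SimpleGraph (Fin n), T.IsTree ∧ ¬ MakerWins T

/-- greedy embedding of a (sub)tree `C` of `T` with prescribed root position `x` -/
def StEmbedTree : Prop := ∀ (V τ : Type) [Fintype V] [DecidableEq V] [Fintype τ] [DecidableEq τ]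
    (G : SimpleGraph V) (T : SimpleGraph τ) (_hT : T.IsAcyclic)
    (P : Finset τ) (κ : τ → Option τ) (_hκ : ∀ t c, κ t = some c → c ∈ P)
    (R : τ → Finset V) (A : Finset V) (_hRA : ∀ c ∈ P, Disjoint (R c) A)
    (_hRR : ∀ c ∈ P, ∀ c' ∈ P, c ≠ c' → Disjoint (R c) (R c'))
    (K s q Δ : ℕ) (_hK : 1 ≤ K) (_hs : 1 ≤ s) (_hq : q = (P.card + 1) * s)
    (_hexp : ∀ X Y : Finset V, X ⊆ A ∪ P.biUnion R → Y ⊆ A ∪ P.biUnion R →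
      s ≤ X.card → s ≤ Y.card → ∃ y ∈ Y, X.card ≤ K * (nb G y X).card)
    (kc : τ → ℕ) (_hR : ∀ c ∈ P, K * (kc c + q) + s ≤ (R c).card)
    (C : Finset τ) (_hC : (T.induce (C : Set τ)).Connected) (r : τ) (_hr : r ∈ C)
    (b : ℕ) (_hb : C.card ≤ 2 ^ b)
    (_hΔ : ∀ t ∈ C, (nb T t C).card ≤ Δ)
    (x : V) (Rx A1 U : Finset V) (_hA1 : A1 ⊆ A) (_hRx : Rx ⊆ A) (_hdis : Disjoint Rx A1)
    (_hxA1 : x ∉ A1) (_hxRx : x ∉ Rx) (_hxU : ∀ c ∈ P, x ∈ R c → x ∈ U)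
    (_hRxn : ∀ z ∈ Rx, G.Adj x z)
    (_hRxc : ((nb T r C).filter (fun t => κ t = none)).card + q ≤ Rx.card)
    (_hxgood : ∀ c ∈ P, (R c).card ≤ K * (nb G x (R c)).card)
    (_hU : ∀ c ∈ P, (U ∩ R c).card + ((C.erase r).filter (fun t => κ t = some c)).card ≤ kc c)
    (_hA1c : C.card + K * (Δ + q) + q * b + s ≤
      A1.card + ((nb T r C).filter (fun t => κ t = none)).card + 1),
    ∃ φ : τ → V, Set.InjOn φ (C : Set τ) ∧ φ r = x ∧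
      (∀ t ∈ C.erase r, (κ t = none → φ t ∈ A1 ∪ Rx) ∧ (∀ c, κ t = some c → φ t ∈ R c \ U)) ∧
      (∀ a ∈ C, ∀ a' ∈ C, T.Adj a a' → G.Adj (φ a) (φ a'))

def StEmbed : Prop := ∀ (V τ : Type) [Fintype V] [DecidableEq V] [Fintype τ] [DecidableEq τ]
    (G : SimpleGraph V) (T : SimpleGraph τ) (_hT : T.IsAcyclic)
    (F P : Finset τ) (_hPF : P ⊆ F) (φ₀ : τ → V) (_hinj : Set.InjOn φ₀ (P : Set τ))
    (_hadj : ∀ a ∈ P, ∀ b ∈ P, T.Adj a b → G.Adj (φ₀ a) (φ₀ b))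
    (_hclosed : ∀ t ∈ F \ P, ∀ a ∈ P, ∀ b ∈ P, T.Adj t a → T.Adj t b → a = b)
    (A : Finset V) (_hA : ∀ a ∈ P, φ₀ a ∉ A)
    (K s Δ b : ℕ) (_hK : 1 ≤ K) (_hs : 1 ≤ s) (_hb : (F \ P).card ≤ 2 ^ b)
    (_hexp : ∀ X Y : Finset V, X ⊆ A → Y ⊆ A → s ≤ X.card → s ≤ Y.card →
      ∃ y ∈ Y, X.card ≤ K * (nb G y X).card)
    (_hΔ : ∀ t ∈ F \ P, (nb T t (F \ P)).card ≤ Δ)
    (_hdeg : ∀ c ∈ P, ∑ c' ∈ P, resv K s P.card (nb T c' (F \ P)).card ≤ (nb G (φ₀ c) A).card)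
    (_hcard : (F \ P).card + ∑ c ∈ P, resv K s P.card (nb T c (F \ P)).card +
      K * (Δ + (P.card + 1) * s) + (P.card + 1) * s * (b + 1) + s ≤ A.card),
    ∃ φ : τ → V, Set.InjOn φ (F : Set τ) ∧ (∀ a ∈ P, φ a = φ₀ a) ∧ (∀ t ∈ F \ P, φ t ∈ A) ∧
      (∀ a ∈ F, ∀ b ∈ F, T.Adj a b → G.Adj (φ a) (φ b))

def StFarStar : Prop := ∀ (τ : Type) [Fintype τ] [DecidableEq τ] (T : SimpleGraph τ)
    (_hT : T.IsAcyclic) (S : Finset τ) (a k : ℕ) (_h : a * (a * k + k + 1) < S.card),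
    (∃ Y ⊆ S, Y.card = a ∧ ∀ x ∈ Y, ∀ y ∈ Y, x ≠ y → Far T x y) ∨ ∃ p, k ≤ (nb T p S).card

def StBare : Prop := ∀ {n : ℕ} (T : SimpleGraph (Fin n)) (_hT : T.IsTree) (N : ℕ) (_hn : 3 ≤ n)
    (_hN : 400 * N ≤ n)
    (_hleaves : 1000 * (univ.filter (fun t => (nb T t univ).card = 1)).card ≤ n),
    ∃ tup : Fin N → Fin 7 → Fin n, Function.Injective (fun p : Fin N × Fin 7 => tup p.1 p.2) ∧
      (∀ i, ∀ k : Fin 6, T.Adj (tup i k.castSucc) (tup i k.succ)) ∧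
      (∀ i k, (nb T (tup i k) univ).card = 2)

def StLeafClose : Prop := ∀ (V τ : Type) [Fintype V] [DecidableEq V] [Fintype τ] [DecidableEq τ]
    (G : SimpleGraph V) (T : SimpleGraph τ) (_hcard : Fintype.card V = Fintype.card τ)
    (F : Finset τ) (_hleaf : ∀ t, t ∉ F → ∃ a ∈ F, ∀ b, T.Adj t b ↔ b = a)
    (φ : τ → V) (_hinj : Set.InjOn φ (F : Set τ))
    (_hadj : ∀ a ∈ F, ∀ b ∈ F, T.Adj a b → G.Adj (φ a) (φ b))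
    (_hall : ∀ X ⊆ F, ∑ t ∈ X, (nb T t (univ \ F)).card ≤
      (nbs G (X.image φ) (univ \ F.image φ)).card),
    Spans G T

def StHall1 : Prop := ∀ (V τ : Type) [Fintype V] [DecidableEq V] [Fintype τ] [DecidableEq τ]
    (G : SimpleGraph V) (H : Finset V) (s : ℕ) (_hG : Expands G H s)
    (F : Finset τ) (φ : τ → V) (_hinj : Set.InjOn φ (F : Set τ)) (D : τ → ℕ) (W : Finset V)
    (_hWH : Disjoint W H) (_hWφ : ∀ t ∈ F, φ t ∉ W)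
    (hubs : Finset τ) (_hhF : hubs ⊆ F) (_hhc : hubs.card ≤ 3)
    (_hhH : ∀ t ∈ F, φ t ∈ H → t ∈ hubs)
    (_hsum : ∑ t ∈ F, D t = W.card)
    (d : ℕ) (_hfew : (F.filter (fun t => d < D t)).card ≤ 39)
    (Δ a : ℕ) (_hΔ : ∀ t ∈ F, D t ≤ Δ)
    (_hdeg : ∀ t ∈ F, a ≤ (nb G (φ t) W).card)
    (_hn : Fintype.card V ≤ 2000 * W.card)
    (_hΔa : 10000 * Δ ≤ a) (_hΔW : 400 * Δ ≤ W.card)
    (_hsd : s ≤ d) (_hhd : ∀ t ∈ hubs, d ≤ D t)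
    (_hdom : ∀ w ∈ W, ∃ t ∈ hubs, G.Adj (φ t) w),
    ∀ X ⊆ F, ∑ t ∈ X, D t ≤ (nbs G (X.image φ) W).card

def StHall2 : Prop := ∀ (V τ : Type) [Fintype V] [DecidableEq V] [Fintype τ] [DecidableEq τ]
    (G : SimpleGraph V) (H : Finset V) (s : ℕ) (_hG : Expands G H s)
    (F : Finset τ) (φ : τ → V) (_hinj : Set.InjOn φ (F : Set τ)) (D : τ → ℕ) (W : Finset V)
    (_hWH : Disjoint W H) (_hWφ : ∀ t ∈ F, φ t ∉ W)
    (hubs : Finset τ) (_hhF : hubs ⊆ F) (_hhc : hubs.card ≤ 3)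
    (_hhH : ∀ t ∈ F, φ t ∈ H → t ∈ hubs)
    (_hsum : ∑ t ∈ F, D t = W.card)
    (d : ℕ) (_hfew : (F.filter (fun t => d < D t)).card ≤ 39)
    (Δ a : ℕ) (_hΔ : ∀ t ∈ F, D t ≤ Δ)
    (_hdeg : ∀ t ∈ F, a ≤ (nb G (φ t) W).card)
    (_hn : Fintype.card V ≤ 2000 * W.card)
    (_hΔa : 10000 * Δ ≤ a) (_hΔW : 400 * Δ ≤ W.card)
    (_hs : 1 ≤ s) (_hds : d ≤ s) (_hsW : 8 * s * (s + 20000) ≤ W.card)
    (_hmany : ∀ w ∈ W, ∃ Y ⊆ F, s ≤ Y.card ∧ ∀ t ∈ Y, 1 ≤ D t ∧ G.Adj (φ t) w),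
    ∀ X ⊆ F, ∑ t ∈ X, D t ≤ (nbs G (X.image φ) W).card

open Classical in
def StBij : Prop := ∃ n0 : ℕ, ∀ n ≥ n0, ∀ s N : ℕ, s ^ 4 ≤ n → n ≤ 500 * N → N ≤ n →
    ∀ (B : Finset (Fin n)), B.card = N →
    ∀ (forb : Fin N → Fin n → Prop), (∀ i, (B.filter (fun b => forb i b)).card ≤ 2) →
    (∀ b ∈ B, (univ.filter (fun i => forb i b)).card ≤ 2) →
    ∀ (bad : Fin 2 → Finset (Fin n) → Fin N → Fin n → Prop) (Ws : Finset (Finset (Fin n))),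
    (∀ c, ∀ W' ∈ Ws, (univ.filter (fun i => s < (B.filter (fun b => bad c W' i b)).card)).card ≤ s) →
    ∀ (good : Fin n → Fin N → Fin n → Prop) (ws : Finset (Fin n)) (I1 : Finset (Fin N)),
    160 * I1.card ≤ N →
    (∀ w ∈ ws, N ≤ 8000 *
      (I1.filter (fun i => N ≤ 41 * (B.filter (fun b => good w i b)).card)).card) →
    ∃ π : Fin N → Fin n, Function.Injective π ∧ (∀ i, π i ∈ B) ∧ (∀ i, ¬ forb i (π i)) ∧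
      (∀ c, ∀ W' ∈ Ws, 300 * (univ.filter (fun i => bad c W' i (π i))).card ≤ N) ∧
      (∀ w ∈ ws, N ≤ 10 ^ 7 * (univ.filter (fun i => good w i (π i))).card)

open Classical in
def StRare : Prop := ∀ {n N : ℕ} (G : SimpleGraph (Fin n)) (s : ℕ) (_hs : 1 ≤ s)
    (_hG : Expands G ∅ s) (x : Fin N → Fin n) (_hx : Function.Injective x) (B W' : Finset (Fin n))
    (_hW' : 81 * s ≤ W'.card),
    (univ.filter (fun i => s < (B.filter (fun b => cnb G (x i) b W' = ∅)).card)).card ≤ s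

open Classical in
def StPathHall : Prop := ∀ (V : Type) [DecidableEq V] (N : ℕ) (_hN : 1 ≤ N)
    (comp : Fin 3 → Fin N → V → Prop)
    (W : Finset V) (_hW : W.card = 3 * N)
    (_h1 : ∀ c i, N ≤ 80 * (W.filter (fun w => comp c i w)).card)
    (_h2 : ∀ w ∈ W, N ≤ 10 ^ 7 * (univ.filter (fun i => comp 1 i w)).card)
    (_h3 : ∀ c, ∀ W' ⊆ W, N ≤ 10 ^ 7 * W'.card →
      300 * (univ.filter (fun i => ∀ w ∈ W', ¬ comp c i w)).card ≤ N),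
    ∃ m : Fin 3 → Fin N → V, Function.Injective (fun p : Fin 3 × Fin N => m p.1 p.2) ∧
      (∀ c i, m c i ∈ W) ∧ (∀ c i, comp c i (m c i))

def StPathClose : Prop := ∀ (V τ : Type) [Fintype V] [DecidableEq V] [Fintype τ] [DecidableEq τ]
    (G : SimpleGraph V) (T : SimpleGraph τ) (_hcard : Fintype.card V = Fintype.card τ)
    (N : ℕ) (tup : Fin N → Fin 7 → τ)
    (_htup : Function.Injective (fun p : Fin N × Fin 7 => tup p.1 p.2))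
    (_hadjt : ∀ i, ∀ k : Fin 6, T.Adj (tup i k.castSucc) (tup i k.succ))
    (_hdeg2 : ∀ i k, (nb T (tup i k) univ).card = 2)
    (F : Finset τ) (_hF : ∀ t, t ∈ F ↔ ¬ ∃ i, ∃ k : Fin 7, 1 ≤ k.val ∧ k.val ≤ 5 ∧ t = tup i k)
    (φ : τ → V) (_hinj : Set.InjOn φ (F : Set τ))
    (_hadj : ∀ a ∈ F, ∀ b ∈ F, T.Adj a b → G.Adj (φ a) (φ b))
    (π1 π2 : Fin N → V) (m : Fin 3 → Fin N → V)
    (_hπ1 : Function.Injective π1) (_hπ2 : Function.Injective π2)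
    (_hm : Function.Injective (fun p : Fin 3 × Fin N => m p.1 p.2))
    (_h12 : ∀ i j, π1 i ≠ π2 j) (_h1m : ∀ i c j, π1 i ≠ m c j) (_h2m : ∀ i c j, π2 i ≠ m c j)
    (_hF1 : ∀ t ∈ F, ∀ i, φ t ≠ π1 i) (_hF2 : ∀ t ∈ F, ∀ i, φ t ≠ π2 i)
    (_hFm : ∀ t ∈ F, ∀ c i, φ t ≠ m c i)
    (_c0 : ∀ i, G.Adj (φ (tup i 0)) (m 0 i) ∧ G.Adj (π1 i) (m 0 i))
    (_c1 : ∀ i, G.Adj (π1 i) (m 1 i) ∧ G.Adj (π2 i) (m 1 i))
    (_c2 : ∀ i, G.Adj (π2 i) (m 2 i) ∧ G.Adj (φ (tup i 6)) (m 2 i)),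
    Spans G T

def StSumNb : Prop := ∀ {n : ℕ} (T : SimpleGraph (Fin n)) (_hT : T.IsTree),
    ∑ t, (nb T t univ).card + 2 = 2 * n

def StLeafStructure : Prop := ∀ {n : ℕ} (T : SimpleGraph (Fin n)) (_hT : T.IsTree) (_hn : 3 ≤ n)
    (t : Fin n), 1 ≤ (nb T t univ).card ∧
    ((nb T t univ).card = 1 → ∃ a, 2 ≤ (nb T a univ).card ∧ ∀ b, T.Adj t b ↔ b = a)

def StStarClosed : Prop := ∀ (τ : Type) [Fintype τ] [DecidableEq τ] (T : SimpleGraph τ)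
    (_hT : T.IsAcyclic) (p : τ) (Y : Finset τ) (_hY : ∀ y ∈ Y, T.Adj p y) (t : τ)
    (_ht : t ∉ Y) (_htp : t ≠ p),
    ∀ a ∈ insert p Y, ∀ b ∈ insert p Y, T.Adj t a → T.Adj t b → a = b

/-- the leaves of `T` -/
noncomputable def lv {n : ℕ} (T : SimpleGraph (Fin n)) : Finset (Fin n) :=
  univ.filter (fun t => (nb T t univ).card = 1)

/-- static theorem, tree with few leaves -/
def StPathStatic : Prop := ∃ n0 : ℕ, ∀ n ≥ n0, ∀ s : ℕ, 1 ≤ s → s ^ 5 ≤ n →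
    ∀ T : SimpleGraph (Fin n), T.IsTree → 1000 * (lv T).card ≤ n →
    (∀ t, 100000 * (nb T t univ).card ≤ n) →
    ∀ (A1 A1' A2 W0 : Finset (Fin n)), A1' ⊆ A1 → A1.card = n / 400 → A2.card = n / 400 →
    W0.card = n / 400 → A1'.card = n / 400 / 160 → Disjoint A1 A2 → Disjoint A1 W0 →
    Disjoint A2 W0 →
    ∀ G : SimpleGraph (Fin n), Expands G ∅ s →
    (∀ v, (A1'.erase v).card ≤ 40 * (nb G v (A1'.erase v)).card) →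
    (∀ v, (A2.erase v).card ≤ 40 * (nb G v (A2.erase v)).card) →
    (∀ x y y', x ≠ y → x ≠ y' → y ≠ y' → W0.card ≤ 40 * (lnb G x y y' W0).card) →
    Spans G T

/-- static theorem, tree with many leaves, some vertices have large demand -/
def StLeafy1 : Prop := ∃ n0 : ℕ, ∀ n ≥ n0, ∀ s : ℕ, 1 ≤ s → s ^ 5 ≤ n →
    ∀ T : SimpleGraph (Fin n), T.IsTree → n < 1000 * (lv T).card →
    (∀ t, 10 ^ 10 * (nb T t univ).card ≤ n) →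
    ∀ d : ℕ, s ≤ d → (univ.filter (fun t => d < (nb T t (lv T)).card)).card ≤ 39 →
    ∀ (hubs P : Finset (Fin n)), hubs ⊆ P → hubs.card = 3 → P.card ≤ 4 →
    (∀ t ∈ P, t ∉ lv T) → (∀ t ∈ hubs, d ≤ (nb T t (lv T)).card) →
    (∀ t, t ∉ P → ∀ a ∈ P, ∀ b ∈ P, T.Adj t a → T.Adj t b → a = b) →
    ∀ φ₀ : Fin n → Fin n, Set.InjOn φ₀ (P : Set (Fin n)) →
    ∀ W0 : Finset (Fin n), Disjoint W0 (P.image φ₀) → 2 * W0.card ≤ (lv T).card →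
    ∀ G : SimpleGraph (Fin n), Expands G (hubs.image φ₀) s →
    (∀ a ∈ P, ∀ b ∈ P, T.Adj a b → G.Adj (φ₀ a) (φ₀ b)) →
    (∀ v, (lv T).card ≤ 1000 * (nb G v W0).card) →
    (∀ c ∈ P, n ≤ 10 ^ 5 * (nb G (φ₀ c) (univ \ (W0 ∪ P.image φ₀))).card) →
    (∀ x, x ∉ P.image φ₀ → ∃ t ∈ hubs, G.Adj (φ₀ t) x) →
    Spans G T

/-- static theorem, tree with many leaves, no large demands -/
def StLeafy2 : Prop := ∃ n0 : ℕ, ∀ n ≥ n0, ∀ s : ℕ, 1 ≤ s → s ^ 20 ≤ n →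
    ∀ T : SimpleGraph (Fin n), T.IsTree → n < 1000 * (lv T).card →
    (∀ t, 10 ^ 10 * (nb T t univ).card ≤ n) →
    ∀ d : ℕ, d ≤ s → (univ.filter (fun t => d < (nb T t (lv T)).card)).card ≤ 39 →
    ∀ (hubs P : Finset (Fin n)), hubs ⊆ P → hubs.card ≤ 3 → P.card ≤ 100 * s →
    (P ∩ lv T).card ≤ 1 → (∀ t ∈ P, t ∈ lv T → ∃ a ∈ P, T.Adj t a) →
    10 ^ 8 * ∑ c ∈ P, (nb T c univ).card ≤ n →
    (∀ t, t ∉ P → ∀ a ∈ P, ∀ b ∈ P, T.Adj t a → T.Adj t b → a = b) →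
    ∀ φ₀ : Fin n → Fin n, Set.InjOn φ₀ (P : Set (Fin n)) →
    ∀ W0 : Finset (Fin n), Disjoint W0 (P.image φ₀) → 2 * W0.card ≤ (lv T).card →
    ∀ G : SimpleGraph (Fin n), Expands G (hubs.image φ₀) s →
    (∀ a ∈ P, ∀ b ∈ P, T.Adj a b → G.Adj (φ₀ a) (φ₀ b)) →
    (∀ v, (lv T).card ≤ 1000 * (nb G v W0).card) →
    (∀ c ∈ P, n ≤ 10 ^ 5 * (nb G (φ₀ c) (univ \ (W0 ∪ P.image φ₀))).card) →
    (∀ w, w ∉ P.image φ₀ → ∃ Y ⊆ P, s ≤ Y.card ∧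
      ∀ t ∈ Y, 1 ≤ (nb T t (lv T \ P)).card ∧ G.Adj (φ₀ t) w) →
    Spans G T

end Pool.Agent.TH451.MB
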